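import Pool.Agent.SR2.F.Mx
import Pool.Agent.SR2.F.Hat

/-!
# SR2 F Pass: from the good points into the static region

`W = -m + (m + Q R) (|z - a|² + A (C₂ R rh - rh²)) / R²` on `closedBall a R`, in `bar_ball`; `rh ≤ C₂ R / 2` there,
`Δ (C₂ R rh - rh²) ≤ - 2 gg (rh) (rh) ≤ - 2 c`.
-/

set_option autoImplicit false

open Topology Filter Metric Laplacian InnerProductSpace

noncomputable section

namespace Pool.Agent.SR2.F

open Pool.Agent.H30M (gg lap_add lap_sub lap_mul lap_const_mul)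

theorem contDiff_nsq (a : ℂ) : ContDiff ℝ 2 fun w : ℂ => ‖w - a‖ ^ 2 := (contDiff_id.sub contDiff_const).norm_sq ℝ

theorem lap_nsq (a z : ℂ) : Δ (fun w : ℂ => ‖w - a‖ ^ 2) z = 4 := by
  have hA : AnalyticAt ℂ (fun w : ℂ => w - a) z := analyticAt_id.sub analyticAt_const
  rw [← MQ.lp_eq_lap (contDiff_nsq a).contDiffAt, MQ.lp_sqnorm hA]
  simp

variable {V : Type} [NormedAddCommGroup V] [InnerProductSpace ℂ V] [CompleteSpace V]

/-- MODULE Pass.  `W = -m + (m + Q R) (|z - a|² + A (C₂ R rh - rh²)) / R²` on `closedBall a R`, in `bar_ball`; `rh ≤ C₂ R / 2` there,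
`Δ (C₂ R rh - rh²) ≤ - 2 gg (rh) (rh) ≤ - 2 c`. -/
theorem pass {κ c B : ℝ} (hκ : 1 ≤ κ) (hc : 0 < c) (hB : 1 ≤ B) : ∃ κ' K : ℝ, κ ≤ κ' ∧ 0 ≤ K ∧ ∀ r d : ℂ → ℝ, Pot r d κ c B →
    ∀ U : ℂ → V, Differentiable ℂ U → ∀ (a : ℂ) (R m Q : ℝ), 1 ≤ R → d a ≤ R → 0 ≤ m + Q * R →
      (∀ z ∈ closedBall a R, d z ≤ κ' → ‖U z‖ ≤ Real.exp (-m)) → (∀ z ∈ closedBall a R, ‖U z‖ ≤ Real.exp (Q * R)) →
        ‖U a‖ ≤ Real.exp (-m + K * (m + Q * R) * (1 + d a) / R) := by
  obtain ⟨A₀, κ', B', hA₀, hκκ', hB', hhat⟩ := exists_hat hκ hc hB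
  refine ⟨κ', 24 * B' ^ 2 / c, hκκ', by positivity, ?_⟩
  intro r d hP U hU a R m Q hR hda hmQ hgood hall
  set rr := rh A₀ r with hrr
  have hH : Hat rr d κ' c B' := hhat r d hP
  have hR0 : 0 < R := by linarith
  rcases hmQ.eq_or_lt with h0 | hmQ0
  · have h1 := hall a (mem_closedBall_self hR0.le)
    have h2 : -m + 24 * B' ^ 2 / c * (m + Q * R) * (1 + d a) / R = Q * R := by
      rw [← h0]
      simp only [mul_zero, zero_mul, zero_div, add_zero]
      linarith
    rw [h2]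
    exact h1
  -- the barrier
  set k : ℝ := (m + Q * R) / R ^ 2 with hk
  have hk0 : 0 < k := by positivity
  have hsm : ContDiff ℝ 2 rr := hH.smooth
  have hv : ContDiff ℝ 2 fun w : ℂ => ((6 * B' * R) * rr w - rr w * rr w : ℝ) := (contDiff_const.mul hsm).sub (hsm.mul hsm)
  have hW : ContDiff ℝ 2 fun w : ℂ => (-m + k * (‖w - a‖ ^ 2 + 4 / c * ((6 * B' * R) * rr w - rr w * rr w)) : ℝ) :=
    contDiff_const.add (contDiff_const.mul ((contDiff_nsq a).add (contDiff_const.mul hv)))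
  have hlap : ∀ w : ℂ, Δ (fun w : ℂ => (-m + k * (‖w - a‖ ^ 2 + 4 / c * ((6 * B' * R) * rr w - rr w * rr w)) : ℝ)) w =
      k * (4 + 4 / c * ((6 * B' * R) * Δ rr w - (rr w * Δ rr w + rr w * Δ rr w + 2 * gg rr rr w))) := by
    intro w
    have h1 : Δ (fun _ : ℂ => -m) w = 0 := by simp
    rw [lap_add contDiff_const.contDiffAt (contDiff_const.mul ((contDiff_nsq a).add (contDiff_const.mul hv))).contDiffAt, h1, zero_add,
      lap_const_mul ((contDiff_nsq a).add (contDiff_const.mul hv)).contDiffAt,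
      lap_add (contDiff_nsq a).contDiffAt (contDiff_const.mul hv).contDiffAt, lap_nsq, lap_const_mul hv.contDiffAt,
      lap_sub (contDiff_const.mul hsm).contDiffAt (hsm.mul hsm).contDiffAt, lap_const_mul hsm.contDiffAt, lap_mul hsm.contDiffAt hsm.contDiffAt]
  -- bounds of `rr` on the ball
  have hrr0 : ∀ w, 0 < rr w := fun w => zero_lt_one.trans_le (hH.one_le w)
  have hrrR : ∀ w ∈ closedBall a R, rr w ≤ 3 * B' * R := by
    intro w hw
    rw [mem_closedBall, dist_eq_norm] at hw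
    have h1 := hH.le w
    have h2 : d w ≤ 2 * R := by
      have h3 := (abs_le.1 (hH.lip w a)).2
      linarith
    calc rr w ≤ B' * (1 + d w) := h1
      _ ≤ B' * (3 * R) := mul_le_mul_of_nonneg_left (by linarith) (by linarith)
      _ = 3 * B' * R := by ring
  have hv0 : ∀ w ∈ closedBall a R, 0 ≤ (6 * B' * R) * rr w - rr w * rr w := by
    intro w hw
    have h1 := hrrR w hw
    have h2 := hrr0 w
    nlinarith
  have hmain := bar_ball (U := U) hU (a := a) (R := R) (fun z _ => hW.contDiffAt) (E := {w | κ' ≤ d w}) ?_ ?_ ?_ a (mem_closedBall_self hR0.le)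
  · refine hmain.trans (Real.exp_le_exp.2 ?_)
    rw [sub_self, norm_zero]
    have h1 : (6 * B' * R) * rr a - rr a * rr a ≤ 6 * B' * R * (B' * (1 + d a)) := by
      have h2 := hH.le a
      have h3 := hrr0 a
      have h4 : (6 * B' * R) * rr a ≤ 6 * B' * R * (B' * (1 + d a)) := mul_le_mul_of_nonneg_left h2 (by positivity)
      nlinarith
    have h2 : k * (0 ^ 2 + 4 / c * ((6 * B' * R) * rr a - rr a * rr a)) ≤ k * (4 / c * (6 * B' * R * (B' * (1 + d a)))) := by
      refine mul_le_mul_of_nonneg_left ?_ hk0.le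
      have h3 : 4 / c * ((6 * B' * R) * rr a - rr a * rr a) ≤ 4 / c * (6 * B' * R * (B' * (1 + d a))) :=
        mul_le_mul_of_nonneg_left h1 (by positivity)
      linarith
    have h3 : k * (4 / c * (6 * B' * R * (B' * (1 + d a)))) = 24 * B' ^ 2 / c * (m + Q * R) * (1 + d a) / R := by
      rw [hk]
      field_simp
      ring
    linarith
  · intro w hw hwE
    have hwE' : κ' ≤ d w := hwE
    rw [hlap]
    refine mul_neg_of_pos_of_neg hk0 ?_
    have h1 := hH.lap w hwE'
    have h2 := hH.grad w hwE'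
    have h3 := hrrR w (ball_subset_closedBall hw)
    have h4 : (6 * B' * R - 2 * rr w) * Δ rr w ≤ 0 := mul_nonpos_of_nonneg_of_nonpos (by linarith) h1
    have h5 : (6 * B' * R) * Δ rr w - (rr w * Δ rr w + rr w * Δ rr w + 2 * gg rr rr w) ≤ -(2 * c) := by nlinarith
    have h6 : 4 / c * ((6 * B' * R) * Δ rr w - (rr w * Δ rr w + rr w * Δ rr w + 2 * gg rr rr w)) ≤ 4 / c * -(2 * c) :=
      mul_le_mul_of_nonneg_left h5 (by positivity)
    have h7 : 4 / c * -(2 * c) = -8 := by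
      field_simp
      norm_num
    linarith
  · intro w hw hwE
    have hwE' : d w ≤ κ' := by
      by_contra hne
      exact hwE (not_le.1 hne).le
    refine (hgood w hw hwE').trans (Real.exp_le_exp.2 ?_)
    have h1 := hv0 w hw
    have h2 : 0 ≤ k * (‖w - a‖ ^ 2 + 4 / c * ((6 * B' * R) * rr w - rr w * rr w)) := by positivity
    linarith
  · intro w hw
    have hw' : ‖w - a‖ = R := by rwa [mem_sphere, dist_eq_norm] at hw
    refine (hall w (sphere_subset_closedBall hw)).trans (Real.exp_le_exp.2 ?_)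
    have h1 := hv0 w (sphere_subset_closedBall hw)
    rw [hw']
    have h2 : k * R ^ 2 ≤ k * (R ^ 2 + 4 / c * ((6 * B' * R) * rr w - rr w * rr w)) := by
      refine mul_le_mul_of_nonneg_left ?_ hk0.le
      have : 0 ≤ 4 / c * ((6 * B' * R) * rr w - rr w * rr w) := by positivity
      linarith
    have h3 : k * R ^ 2 = m + Q * R := by
      rw [hk]
      field_simp
    linarith

end Pool.Agent.SR2.F
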