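import Pool.Agent.SR2.Defs
import Pool.Agent.SR2.Glo
import Mathlib.Analysis.Complex.LocallyUniformLimit

/-!
# SR2 F Cst (block F of SDR2): the coefficient of a tangential variation is constant

In a chart `(σ, τ)` the form `w j` is the restriction of the function `(x, ξ) ↦ w j (σ (τ x)) (dσ (dτ ξ))`, analytic near `(F₀ z, F₀' z)`.
Its derivative vanishes on `(V z, V' z)`, because the values of `w j` along `F k` and `H k` are the same numbers, and on `(F₀' z, F₀'' z)`; on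
`(0, F₀' z)` it is `m j q j` (Euler).
-/

set_option autoImplicit false

open Topology Filter Metric Asymptotics

noncomputable section

namespace Pool.Agent.SR2.F

open Pool.Agent.H36.BP (EN fs)
open Pool.Agent.H17BP (Surface IsChart)
open Pool.Agent.H14.PP (Tan CurveAt)

variable {N : ℕ} {G : Geo N} {T : Set (EN N)}

/-! ## charts -/

section

variable {X : Set (EN N)} {σ : ℂ × ℂ → EN N} {τ : EN N → ℂ × ℂ}

/-- the points and tangent vectors of the surface near the centre of a chart -/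
theorem cst_chart (h : IsChart X σ τ) :
    ∀ᶠ y in 𝓝 (σ 0), y ∈ X → ∃ c : ℂ, c ≠ 0 ∧ y = c • σ (τ y) ∧
      ∀ v, Tan X y v → ∃ a : ℂ, v = c • fderiv ℂ σ (τ y) (fderiv ℂ τ y v) + a • σ (τ y) := by
  have h0 : τ (σ 0) = 0 := h.left.self_of_nhds
  have h1 : Tendsto τ (𝓝 (σ 0)) (𝓝 0) := by
    have := h.τ_an.continuousAt
    rwa [ContinuousAt, h0] at this
  have h2 : ∀ᶠ y in 𝓝 (σ 0), σ (τ y) ≠ 0 := (h.σ_an.continuousAt.tendsto.comp h1).eventually_ne h.ne
  filter_upwards [h.right.eventually_nhds, h.τ_an.eventually_analyticAt, h1.eventually h.σ_an.eventually_analyticAt, h2] with y h3 h4 h5 h6 hyX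
  obtain ⟨c, hc, h7⟩ := h3.self_of_nhds hyX
  refine ⟨c, hc, h7, fun v hv => ?_⟩
  obtain ⟨F, ⟨hF, hFX⟩, hF0, hF1⟩ := hv
  have h8 : AnalyticAt ℂ (fun z => τ (F z)) 0 := AnalyticAt.comp_of_eq h4 hF hF0
  have h9 : AnalyticAt ℂ (fun z => σ (τ (F z))) 0 := AnalyticAt.comp_of_eq h5 h8 (by rw [hF0])
  obtain ⟨b, hb⟩ : ∃ b, σ (τ y) b ≠ 0 := by
    by_contra hne
    push Not at hne
    exact h6 (by ext b; exact hne b)
  have hco : ∀ {G : ℂ → EN N}, AnalyticAt ℂ G 0 → AnalyticAt ℂ (fun z => G z b) 0 := fun {G} hG =>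
    ((EuclideanSpace.proj b : EN N →L[ℂ] ℂ).analyticAt _).fun_comp hG
  have hGb : σ (τ (F 0)) b ≠ 0 := by rwa [hF0]
  have hk : AnalyticAt ℂ (fun z => F z b / σ (τ (F z)) b) 0 := (hco hF).div (hco h9) hGb
  have he : F =ᶠ[𝓝 0] fun z => (F z b / σ (τ (F z)) b) • σ (τ (F z)) := by
    have hFc : Tendsto F (𝓝 0) (𝓝 y) := by
      have := hF.continuousAt
      rwa [ContinuousAt, hF0] at this
    filter_upwards [hFX, hFc.eventually h3, (hco h9).continuousAt.eventually_ne hGb] with z h10 h11 h12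
    obtain ⟨c', -, h13⟩ := h11 h10
    have h14 : F z b = c' * σ (τ (F z)) b := by
      have := congrArg (fun x : EN N => x b) h13
      simpa using this
    rw [h14, mul_div_cancel_right₀ _ h12]
    exact h13
  have h15 : HasDerivAt (fun z => σ (τ (F z))) (fderiv ℂ σ (τ y) (fderiv ℂ τ y v)) 0 := by
    have h16 : HasDerivAt F v 0 := by
      rw [← hF1]
      exact hF.differentiableAt.hasDerivAt
    have h17 : HasDerivAt (fun z => τ (F z)) (fderiv ℂ τ y v) 0 := by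
      have h4' : HasFDerivAt τ (fderiv ℂ τ y) (F 0) := by
        rw [hF0]
        exact h4.differentiableAt.hasFDerivAt
      exact h4'.comp_hasDerivAt 0 h16
    have h5' : HasFDerivAt σ (fderiv ℂ σ (τ y)) (τ (F 0)) := by
      rw [hF0]
      exact h5.differentiableAt.hasFDerivAt
    exact h5'.comp_hasDerivAt 0 h17
  have hk0 : F 0 b / σ (τ (F 0)) b = c := by
    rw [hF0]
    have h18 : y b = c * σ (τ y) b := by
      have := congrArg (fun x : EN N => x b) h7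
      simpa using this
    rw [h18, mul_div_cancel_right₀ _ hb]
  have h19 := hk.differentiableAt.hasDerivAt.smul h15
  have h20 := h19.congr_of_eventuallyEq he
  refine ⟨deriv (fun z => F z b / σ (τ (F z)) b) 0, ?_⟩
  have h21 := h20.deriv
  rw [hF1, hk0, hF0] at h21
  exact h21

/-- the derivatives of the parametrisation are tangent vectors -/
theorem cst_tan (h : IsChart X σ τ) : ∀ᶠ y in 𝓝 (0 : ℂ × ℂ), ∀ t, Tan X (σ y) (fderiv ℂ σ y t) := by
  filter_upwards [h.σ_an.eventually_analyticAt, h.σ_mem.eventually_nhds] with y h1 h2 t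
  have h3 : HasDerivAt (fun s : ℂ => y + s • t) t 0 := by simpa using ((hasDerivAt_id (0 : ℂ)).smul_const t).const_add y
  have h4 : AnalyticAt ℂ (fun s : ℂ => y + s • t) 0 := analyticAt_const.add (analyticAt_id.smul analyticAt_const)
  have h5 : Tendsto (fun s : ℂ => y + s • t) (𝓝 0) (𝓝 y) := by simpa using h4.continuousAt.tendsto
  refine ⟨fun s => σ (y + s • t), ⟨AnalyticAt.comp_of_eq h1 h4 (by simp), h5.eventually h2⟩, by simp, ?_⟩
  exact (h1.differentiableAt.hasFDerivAt.comp_hasDerivAt_of_eq (0 : ℂ) h3 (by simp)).deriv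

end

/-! ## the forms in a chart -/

/-- the form `w j` in the chart `(σ, τ)` -/
def cstW (G : Geo N) (j : G.J) (σ : ℂ × ℂ → EN N) (τ : EN N → ℂ × ℂ) (P : EN N × EN N) : ℂ :=
  G.w j (σ (τ P.1)) (fderiv ℂ σ (τ P.1) (fderiv ℂ τ P.1 P.2))

variable {σ : ℂ × ℂ → EN N} {τ : EN N → ℂ × ℂ}

theorem cst_K (hG : G.Ok) (h : IsChart G.X σ τ) (hK : σ 0 ∈ G.K) : ∀ᶠ y in 𝓝 (0 : ℂ × ℂ), σ y ∈ G.K := by
  have h1 : G.p (σ 0) ≠ 0 := ((hG.aff.mem _).1 hK).2 ()
  have h2 : ContinuousAt (fun y => G.p (σ y)) 0 := ContinuousAt.comp (g := G.p) (hG.aff.an () _).continuousAt h.σ_an.continuousAt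
  filter_upwards [h.σ_mem, h2.eventually_ne h1] with y h3 h4
  exact (hG.aff.mem _).2 ⟨h3, fun _ => h4⟩

theorem cstW_an (hG : G.Ok) (h : IsChart G.X σ τ) (hK : σ 0 ∈ G.K) (j : G.J) (ξ : EN N) : AnalyticAt ℂ (cstW G j σ τ) (σ 0, ξ) := by
  have h0 : τ (σ 0) = 0 := h.left.self_of_nhds
  set E : (Fin 2 → ℂ) ≃L[ℂ] ℂ × ℂ := ContinuousLinearEquiv.finTwoArrow ℂ ℂ with hE
  have h1 : AnalyticAt ℂ (σ ∘ E) 0 := AnalyticAt.comp_of_eq h.σ_an (E.analyticAt _) (map_zero E)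
  have h2 : ∀ᶠ y in 𝓝 (0 : Fin 2 → ℂ), (σ ∘ E) y ∈ G.K := by
    have h3 : Tendsto E (𝓝 0) (𝓝 0) := by simpa using E.continuous.tendsto 0
    exact h3.eventually (cst_K hG h hK)
  have h3 := hG.w_an j 2 (σ ∘ E) 0 (E.symm (fderiv ℂ τ (σ 0) ξ)) h1 h2
  have h4 : AnalyticAt ℂ (fun P : EN N × EN N => τ P.1) (σ 0, ξ) := AnalyticAt.comp_of_eq (g := τ) h.τ_an analyticAt_fst rfl
  have h5 : AnalyticAt ℂ (fun P : EN N × EN N => fderiv ℂ τ P.1) (σ 0, ξ) := AnalyticAt.comp_of_eq (g := fderiv ℂ τ) h.τ_an.fderiv analyticAt_fst rfl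
  have h5' : AnalyticAt ℂ (fun P : EN N × EN N => fderiv ℂ τ P.1 P.2) (σ 0, ξ) :=
    ((ContinuousLinearMap.id ℂ (EN N →L[ℂ] ℂ × ℂ)).analyticAt_bilinear (fderiv ℂ τ (σ 0), ξ)).comp_of_eq (h5.prod analyticAt_snd) rfl
  have h6 : AnalyticAt ℂ (fun P : EN N × EN N => (E.symm (τ P.1), E.symm (fderiv ℂ τ P.1 P.2))) (σ 0, ξ) :=
    (((E.symm : ℂ × ℂ →L[ℂ] (Fin 2 → ℂ)).analyticAt _).comp h4).prod (((E.symm : ℂ × ℂ →L[ℂ] (Fin 2 → ℂ)).analyticAt _).comp h5')
  have h7 := AnalyticAt.comp_of_eq h3 h6 (by simp [h0])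
  refine h7.congr (Eventually.of_forall fun P => ?_)
  simp only [Function.comp_apply, cstW]
  rw [E.comp_right_fderiv]
  simp

theorem cstW_eq (hG : G.Ok) (h : IsChart G.X σ τ) (hK : σ 0 ∈ G.K) (j : G.J) :
    ∀ᶠ x in 𝓝 (σ 0), x ∈ G.X → ∀ v, Tan G.X x v → cstW G j σ τ (x, v) = G.w j x v := by
  have h1 : Tendsto τ (𝓝 (σ 0)) (𝓝 0) := by
    have := h.τ_an.continuousAt
    rwa [ContinuousAt, h.left.self_of_nhds] at this
  filter_upwards [cst_chart h, h1.eventually (cst_K hG h hK), h1.eventually (cst_tan h)] with x h2 h3 h4 hx v hv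
  obtain ⟨c, hc, h5, h6⟩ := h2 hx
  obtain ⟨a, h7⟩ := h6 v hv
  have h8 := hG.w_inv j _ h3 _ (h4 (fderiv ℂ τ x v)) c a hc
  rw [← h5, ← h7] at h8
  exact h8.symm

theorem cst_tan_curve {F : ℂ → EN N} (hF : Differentiable ℂ F) (hm : ∀ z, F z ∈ G.X) (z : ℂ) : Tan G.X (F z) (deriv F z) := by
  have h1 : AnalyticAt ℂ (fun w : ℂ => z + w) 0 := analyticAt_const.add analyticAt_id
  refine ⟨fun w => F (z + w), ⟨AnalyticAt.comp_of_eq (hF.analyticAt z) h1 (by simp), Eventually.of_forall fun w => hm _⟩, by simp, ?_⟩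
  have h2 : HasDerivAt (fun w : ℂ => z + w) 1 0 := (hasDerivAt_id (0 : ℂ)).const_add z
  have h3 := HasDerivAt.scomp_of_eq (0 : ℂ) (h := fun w : ℂ => z + w) (hF z).hasDerivAt h2 (by simp)
  simpa [Function.comp_def] using h3.deriv

/-- MODULE Cst. -/
theorem deriv_c_zero (hG : G.Ok) (𝒰 : Ultrafilter ℕ) {q : G.J → ℂ} {F H : ℕ → ℂ → EN N} {ℓ : ℕ → ℝ} {F₀ V : ℂ → EN N}
    (hF : ∀ k, G.Cl T q (F k)) (hH : ∀ k, G.Cl T q (H k)) (h0 : G.Cl T q F₀) (hℓ : ∀ k, 0 < ℓ k) (hℓ0 : Tendsto ℓ 𝒰 (𝓝 0))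
    (h1 : TendstoLocallyUniformlyOn F F₀ 𝒰 Set.univ)
    (h2 : TendstoLocallyUniformlyOn (fun k z => ((ℓ k : ℂ)⁻¹) • (H k z - F k z)) V 𝒰 Set.univ) {c : ℂ → ℂ} (hc : Differentiable ℂ c)
    (hV : ∀ z, V z = c z • deriv F₀ z) : ∀ z, deriv c z = 0 := by
  intro z
  -- a form which is not zero
  obtain ⟨j, hj⟩ : ∃ j, q j ≠ 0 := by
    by_contra hne
    push Not at hne
    have h3 := h0.one
    unfold Geo.nq at h3
    rw [Finset.sum_eq_zero fun j _ => ?_] at h3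
    · exact zero_ne_one h3
    · rw [hne j, norm_zero]
      have h4 := hG.one_m j
      exact Real.zero_rpow (inv_ne_zero (by exact_mod_cast (by omega : G.m j ≠ 0)))
  have hX : ∀ x ∈ G.K, x ∈ G.X := fun x hx => ((hG.aff.mem x).1 hx).1
  obtain ⟨σ, τ, hch, hσ⟩ := hG.surf.chart (F₀ z) (hX _ (h0.ent.mem z))
  have hK : σ 0 ∈ G.K := by rw [hσ]; exact h0.ent.mem z
  have han := cstW_an hG hch hK j (deriv F₀ z)
  rw [hσ] at han
  have hev := cstW_eq hG hch hK j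
  rw [hσ] at hev
  set W := cstW G j σ τ with hW
  set D := fderiv ℂ W (F₀ z, deriv F₀ z) with hD
  have hst : HasStrictFDerivAt W D (F₀ z, deriv F₀ z) := han.hasStrictFDerivAt
  -- the values of `W` along a curve of the class near the point
  have hval : ∀ {Φ : ℂ → EN N}, G.Cl T q Φ → ∀ w, (Φ w ∈ G.X → ∀ v, Tan G.X (Φ w) v → W (Φ w, v) = G.w j (Φ w) v) →
      W (Φ w, deriv Φ w) = q j := fun {Φ} hΦ w hw =>
    (hw (hX _ (hΦ.ent.mem w)) _ (cst_tan_curve hΦ.ent.diff (fun z => hX _ (hΦ.ent.mem z)) w)).trans (hΦ.val j w)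
  -- the limits
  have hF1 : Tendsto (fun k => (F k z, deriv (F k) z)) 𝒰 (𝓝 (F₀ z, deriv F₀ z)) :=
    (h1.tendsto_at (Set.mem_univ z)).prodMk_nhds ((h1.deriv (Eventually.of_forall fun k => (hF k).ent.diff.differentiableOn) isOpen_univ).tendsto_at
      (Set.mem_univ z))
  have hd2 : ∀ k, Differentiable ℂ fun z => ((ℓ k : ℂ)⁻¹) • (H k z - F k z) := fun k =>
    ((hH k).ent.diff.sub (hF k).ent.diff).const_smul ((ℓ k : ℂ)⁻¹)
  have hR1 : Tendsto (fun k => (((ℓ k : ℂ)⁻¹) • (H k z - F k z), deriv (fun z => ((ℓ k : ℂ)⁻¹) • (H k z - F k z)) z)) 𝒰 (𝓝 (V z, deriv V z)) :=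
    (h2.tendsto_at (Set.mem_univ z)).prodMk_nhds ((h2.deriv (Eventually.of_forall fun k => (hd2 k).differentiableOn) isOpen_univ).tendsto_at
      (Set.mem_univ z))
  have hR2 : ∀ k, (((ℓ k : ℂ)⁻¹) • (H k z - F k z), deriv (fun z => ((ℓ k : ℂ)⁻¹) • (H k z - F k z)) z) =
      ((ℓ k : ℂ)⁻¹) • ((H k z, deriv (H k) z) - (F k z, deriv (F k) z)) := by
    intro k
    have h3 : deriv (fun z => ((ℓ k : ℂ)⁻¹) • (H k z - F k z)) z = ((ℓ k : ℂ)⁻¹) • (deriv (H k) z - deriv (F k) z) :=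
      ((((hH k).ent.diff z).hasDerivAt.sub ((hF k).ent.diff z).hasDerivAt).const_smul ((ℓ k : ℂ)⁻¹)).deriv
    rw [h3]
    rfl
  have hR : Tendsto (fun k => ((ℓ k : ℂ)⁻¹) • ((H k z, deriv (H k) z) - (F k z, deriv (F k) z))) 𝒰 (𝓝 (V z, deriv V z)) :=
    hR1.congr hR2
  have hℓC : Tendsto (fun k => (ℓ k : ℂ)) 𝒰 (𝓝 0) := by
    have := (Complex.continuous_ofReal.tendsto 0).comp hℓ0
    rwa [Complex.ofReal_zero] at this
  have hH1 : Tendsto (fun k => (H k z, deriv (H k) z)) 𝒰 (𝓝 (F₀ z, deriv F₀ z)) := by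
    have h3 := hF1.add (hℓC.smul hR)
    rw [zero_smul, add_zero] at h3
    refine h3.congr fun k => ?_
    have h4 : (ℓ k : ℂ) ≠ 0 := by exact_mod_cast (hℓ k).ne'
    rw [smul_smul, mul_inv_cancel₀ h4, one_smul, add_sub_cancel]
  -- `D (V z, V' z) = 0`
  have hDV : D (V z, deriv V z) = 0 := by
    have h3 := hst.isLittleO.comp_tendsto (hH1.prodMk_nhds hF1)
    have h4 : ∀ᶠ k in (𝒰 : Filter ℕ), W (H k z, deriv (H k) z) - W (F k z, deriv (F k) z) = 0 := by
      have h5 : Tendsto (fun k => F k z) 𝒰 (𝓝 (F₀ z)) := h1.tendsto_at (Set.mem_univ z)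
      have h6 : Tendsto (fun k => H k z) 𝒰 (𝓝 (F₀ z)) := (continuous_fst.tendsto _).comp hH1
      filter_upwards [h5.eventually hev, h6.eventually hev] with k h7 h8
      rw [hval (hH k) z h8, hval (hF k) z h7, sub_self]
    have h5 : (fun k => D (((ℓ k : ℂ)⁻¹) • ((H k z, deriv (H k) z) - (F k z, deriv (F k) z)))) =o[(𝒰 : Filter ℕ)] fun _ => (1 : ℝ) := by
      have h6 : (fun k => D (((ℓ k : ℂ)⁻¹) • ((H k z, deriv (H k) z) - (F k z, deriv (F k) z)))) =o[(𝒰 : Filter ℕ)]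
          fun k => ((ℓ k : ℂ)⁻¹) • ((H k z, deriv (H k) z) - (F k z, deriv (F k) z)) := by
        have h7 : (fun k => D ((H k z, deriv (H k) z) - (F k z, deriv (F k) z))) =o[(𝒰 : Filter ℕ)]
            fun k => (H k z, deriv (H k) z) - (F k z, deriv (F k) z) := by
          refine (h3.neg_left).congr' ?_ EventuallyEq.rfl
          filter_upwards [h4] with k h8
          simp only [Function.comp]
          rw [h8]
          simp
        have h8 : (fun k => ((ℓ k : ℂ)⁻¹) • D ((H k z, deriv (H k) z) - (F k z, deriv (F k) z))) =o[(𝒰 : Filter ℕ)]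
            fun k => ((ℓ k : ℂ)⁻¹) • ((H k z, deriv (H k) z) - (F k z, deriv (F k) z)) := (isBigO_refl (fun k => (ℓ k : ℂ)⁻¹) _).smul_isLittleO h7
        refine h8.congr_left fun k => ?_
        rw [map_smul]
      exact h6.trans_isBigO (hR.isBigO_one ℝ)
    have h6 := (isLittleO_one_iff ℝ).1 h5
    have h7 : Tendsto (fun k => D (((ℓ k : ℂ)⁻¹) • ((H k z, deriv (H k) z) - (F k z, deriv (F k) z)))) 𝒰 (𝓝 (D (V z, deriv V z))) :=
      (D.continuous.tendsto _).comp hR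
    exact tendsto_nhds_unique h7 h6
  -- `V' = c' F₀' + c F₀''`
  have hF0 := h0.ent.diff
  have hF0' : Differentiable ℂ (deriv F₀) := fun w => ((hF0.analyticAt w).deriv).differentiableAt
  have hV' : deriv V z = c z • deriv (deriv F₀) z + deriv c z • deriv F₀ z := by
    have h3 : V = fun z => c z • deriv F₀ z := funext hV
    rw [h3]
    exact ((hc z).hasDerivAt.smul (hF0' z).hasDerivAt).deriv
  -- the derivative along the curve
  have hD1 : D (deriv F₀ z, deriv (deriv F₀) z) = 0 := by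
    have h3 : HasDerivAt (fun w => W (F₀ w, deriv F₀ w)) (D (deriv F₀ z, deriv (deriv F₀) z)) z :=
      hst.hasFDerivAt.comp_hasDerivAt_of_eq z ((hF0 z).hasDerivAt.prodMk (hF0' z).hasDerivAt) rfl
    have h4 : (fun w => W (F₀ w, deriv F₀ w)) =ᶠ[𝓝 z] fun _ => q j := by
      filter_upwards [(hF0.continuous.tendsto z).eventually hev] with w hw
      exact hval h0 w hw
    exact h3.unique ((hasDerivAt_const z (q j)).congr_of_eventuallyEq h4)
  -- Euler
  have hD2 : D (0, deriv F₀ z) = G.m j * q j := by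
    have h3 : HasDerivAt (fun s : ℂ => W (F₀ z, s • deriv F₀ z)) (D (0, deriv F₀ z)) 1 := by
      have h4 : HasDerivAt (fun s : ℂ => (F₀ z, s • deriv F₀ z)) (0, deriv F₀ z) 1 := by
        have h5 : HasDerivAt (fun s : ℂ => s • deriv F₀ z) (deriv F₀ z) 1 := by simpa using (hasDerivAt_id (1 : ℂ)).smul_const (deriv F₀ z)
        exact (hasDerivAt_const (1 : ℂ) (F₀ z)).prodMk h5
      exact hst.hasFDerivAt.comp_hasDerivAt_of_eq 1 h4 (by simp)
    have h4 : (fun s : ℂ => W (F₀ z, s • deriv F₀ z)) = fun s => s ^ G.m j * q j := by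
      funext s
      have h5 : τ (F₀ z) = 0 := by rw [← hσ]; exact hch.left.self_of_nhds
      have h6 : W (F₀ z, deriv F₀ z) = q j := hval h0 z hev.self_of_nhds
      have h7 := hG.w_hom j (σ 0) hK _ ((cst_tan hch).self_of_nhds (fderiv ℂ τ (F₀ z) (deriv F₀ z))) s
      rw [← h6, hW]
      simp only [cstW, h5]
      rw [map_smul, map_smul]
      exact h7
    rw [h4] at h3
    have h5 : HasDerivAt (fun s : ℂ => s ^ G.m j * q j) (G.m j * q j) 1 := by
      simpa using (hasDerivAt_pow (G.m j) (1 : ℂ)).mul_const (q j)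
    exact h3.unique h5
  have h3 : (V z, deriv V z) = c z • (deriv F₀ z, deriv (deriv F₀) z) + deriv c z • ((0 : EN N), deriv F₀ z) := by
    rw [hV', hV z]
    ext1 <;> simp
  rw [h3, map_add, map_smul, map_smul, hD1, hD2, smul_zero, zero_add, smul_eq_mul] at hDV
  have hm : (G.m j : ℂ) ≠ 0 := by
    have := hG.one_m j
    exact_mod_cast (by omega : G.m j ≠ 0)
  rcases mul_eq_zero.1 hDV with h4 | h4
  · exact h4
  · exact absurd h4 (mul_ne_zero hm hj)

end Pool.Agent.SR2.F
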