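import Pool.Agent.SR2.F.Defs

/-!
# SR2 F Jen: an entire function which is small off a line

PROOF.  On the circle `|w - z₀| = R` the exponent is at most `K - k Re (ζ ²)`, `ζ = star u (w - a)`, `k = c / (2 (|z₀ - a| + R))`,
because `|ζ + conj ζ| / 2 ≥ (Re ζ)² / (|z₀ - a| + R)` and `2 (Re ζ)² = |ζ|² + Re ζ²`; the maximum principle for `ψ exp (k ζ²)`.
-/

set_option autoImplicit false

open Topology Filter Metric

noncomputable section

namespace Pool.Agent.SR2.F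

private theorem jen_bound {ψ : ℂ → ℂ} (hψ : Differentiable ℂ ψ) {u a : ℂ} (hu : ‖u‖ = 1) {c C γ γ' : ℝ} (hc : 0 < c) (hγ : γ ≤ γ') (hγ' : 0 ≤ γ')
    (h : ∀ z, ‖ψ z‖ ≤ Real.exp (C * pw γ ‖z‖ - c * |yy u a z|)) (z₀ : ℂ) {R : ℝ} (hR : 0 < R) (hRa : ‖z₀ - a‖ ≤ R) :
    ‖ψ z₀‖ ≤ Real.exp (|C| * (2 + ‖z₀‖ + R) ^ γ' - c / 2 * R + 2 * c * ‖z₀ - a‖) := by
  set e : ℝ := ‖z₀ - a‖ with he
  have he0 : 0 ≤ e := norm_nonneg _
  set k : ℝ := c / (2 * (e + R)) with hk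
  have hS : 0 < e + R := by linarith
  have hk0 : 0 < k := by positivity
  set K : ℝ := |C| * (2 + ‖z₀‖ + R) ^ γ' - k * (R - e) ^ 2 with hK
  set ζ : ℂ → ℂ := fun w => star u * (w - a) with hζ
  have hζd : Differentiable ℂ ζ := fun w => by
    show DifferentiableAt ℂ (fun w => star u * (w - a)) w
    fun_prop
  have hζn : ∀ w, ‖ζ w‖ = ‖w - a‖ := fun w => by
    show ‖star u * (w - a)‖ = _
    rw [norm_mul, norm_star, hu, one_mul]
  have hd : Differentiable ℂ fun w => ψ w * Complex.exp (k * ζ w ^ 2) := by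
    intro w
    exact (hψ w).mul (((differentiableAt_const _).mul ((hζd w).pow 2)).cexp)
  have hbd : ∀ w ∈ frontier (ball z₀ R), ‖ψ w * Complex.exp (k * ζ w ^ 2)‖ ≤ Real.exp K := by
    intro w hw
    rw [frontier_ball z₀ hR.ne', mem_sphere, dist_eq_norm] at hw
    have hre : ((k : ℂ) * ζ w ^ 2).re = k * (2 * yy u a w ^ 2 - ‖w - a‖ ^ 2) := by
      rw [Complex.re_ofReal_mul]
      congr 1
      have h1 : ‖w - a‖ ^ 2 = (ζ w).re ^ 2 + (ζ w).im ^ 2 := by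
        rw [← hζn w, Complex.sq_norm, Complex.normSq_apply]
        ring
      have h2 : yy u a w = (ζ w).re := rfl
      rw [h1, h2, pow_two (ζ w), Complex.mul_re]
      ring
    rw [norm_mul, Complex.norm_exp, hre]
    refine (mul_le_mul_of_nonneg_right (h w) (Real.exp_pos _).le).trans ?_
    rw [← Real.exp_add]
    refine Real.exp_le_exp.2 ?_
    have hwa : ‖w - a‖ ≤ e + R := by
      calc ‖w - a‖ = ‖(w - z₀) + (z₀ - a)‖ := by congr 1; ring
        _ ≤ ‖w - z₀‖ + ‖z₀ - a‖ := norm_add_le _ _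
        _ = e + R := by rw [hw, ← he]; ring
    have hwa' : R - e ≤ ‖w - a‖ := by
      have h1 : ‖w - z₀‖ ≤ ‖w - a‖ + ‖z₀ - a‖ := by
        calc ‖w - z₀‖ = ‖(w - a) - (z₀ - a)‖ := by congr 1; ring
          _ ≤ _ := norm_sub_le _ _
      rw [hw] at h1
      linarith
    have hyy : |yy u a w| ≤ e + R := by
      refine le_trans ?_ hwa
      have h1 : |(ζ w).re| ≤ ‖ζ w‖ := Complex.abs_re_le_norm _
      rw [hζn] at h1
      exact h1
    -- the growth term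
    have h1 : C * pw γ ‖w‖ ≤ |C| * (2 + ‖z₀‖ + R) ^ γ' := by
      have h2 : (1 : ℝ) ≤ 2 + ‖w‖ := by have := norm_nonneg w; linarith
      have h3 : ‖w‖ ≤ ‖z₀‖ + R := by
        calc ‖w‖ = ‖(w - z₀) + z₀‖ := by congr 1; ring
          _ ≤ ‖w - z₀‖ + ‖z₀‖ := norm_add_le _ _
          _ = ‖z₀‖ + R := by rw [hw]; ring
      have h4 : pw γ ‖w‖ ≤ (2 + ‖z₀‖ + R) ^ γ' := by
        unfold pw
        calc (2 + ‖w‖) ^ γ ≤ (2 + ‖w‖) ^ γ' := Real.rpow_le_rpow_of_exponent_le h2 hγ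
          _ ≤ (2 + ‖z₀‖ + R) ^ γ' := Real.rpow_le_rpow (by linarith) (by linarith) hγ'
      have h5 : 0 ≤ pw γ ‖w‖ := Real.rpow_nonneg (by linarith) _
      calc C * pw γ ‖w‖ ≤ |C| * pw γ ‖w‖ := mul_le_mul_of_nonneg_right (le_abs_self C) h5
        _ ≤ _ := mul_le_mul_of_nonneg_left h4 (abs_nonneg C)
    -- the decay
    have h2 : 2 * k * yy u a w ^ 2 ≤ c * |yy u a w| := by
      have h3 : 2 * k * (e + R) = c := by
        rw [hk]
        field_simp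
      have h4 : yy u a w ^ 2 ≤ |yy u a w| * (e + R) := by
        rw [← sq_abs, pow_two]
        exact mul_le_mul_of_nonneg_left hyy (abs_nonneg _)
      calc 2 * k * yy u a w ^ 2 ≤ 2 * k * (|yy u a w| * (e + R)) := mul_le_mul_of_nonneg_left h4 (by positivity)
        _ = (2 * k * (e + R)) * |yy u a w| := by ring
        _ = _ := by rw [h3]
    have h3 : k * (R - e) ^ 2 ≤ k * ‖w - a‖ ^ 2 := by
      refine mul_le_mul_of_nonneg_left ?_ hk0.le
      exact pow_le_pow_left₀ (by linarith) hwa' 2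
    rw [hK]
    nlinarith
  have hmax := Complex.norm_le_of_forall_mem_frontier_norm_le (U := ball z₀ R) isBounded_ball (f := fun w => ψ w * Complex.exp (k * ζ w ^ 2))
    hd.diffContOnCl hbd (subset_closure (mem_ball_self hR))
  have h1 : ‖ψ z₀‖ * Real.exp (-(k * e ^ 2)) ≤ Real.exp K := by
    refine le_trans ?_ hmax
    rw [norm_mul, Complex.norm_exp]
    refine mul_le_mul_of_nonneg_left (Real.exp_le_exp.2 ?_) (norm_nonneg _)
    have h2 : -‖(k : ℂ) * ζ z₀ ^ 2‖ ≤ ((k : ℂ) * ζ z₀ ^ 2).re := (abs_le.1 (Complex.abs_re_le_norm _)).1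
    rw [norm_mul, Complex.norm_real, Real.norm_of_nonneg hk0.le, norm_pow, hζn, ← he] at h2
    exact h2
  have h2 : ‖ψ z₀‖ ≤ Real.exp (K + k * e ^ 2) := by
    have h3 := mul_le_mul_of_nonneg_right h1 (Real.exp_pos (k * e ^ 2)).le
    rwa [mul_assoc, ← Real.exp_add, neg_add_cancel, Real.exp_zero, mul_one, ← Real.exp_add] at h3
  refine h2.trans (Real.exp_le_exp.2 ?_)
  have h3 : k * (R - e) ^ 2 - k * e ^ 2 = c / 2 * (R * (R - 2 * e) / (e + R)) := by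
    rw [hk]
    field_simp
    ring
  have h4 : R - 4 * e ≤ R * (R - 2 * e) / (e + R) := by
    rw [le_div_iff₀ hS]
    nlinarith
  have h5 : c / 2 * (R - 4 * e) ≤ c / 2 * (R * (R - 2 * e) / (e + R)) := mul_le_mul_of_nonneg_left h4 (by positivity)
  rw [hK]
  linarith

/-- MODULE Jen.  Jensen: `log ‖ψ z₀‖ ≤` mean of `log ‖ψ‖` over large circles, which tends to `-∞`. -/
theorem entire_zero {ψ : ℂ → ℂ} (hψ : Differentiable ℂ ψ) {u a : ℂ} (hu : ‖u‖ = 1) {c C γ : ℝ} (hc : 0 < c) (hγ : γ < 1)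
    (h : ∀ z, ‖ψ z‖ ≤ Real.exp (C * pw γ ‖z‖ - c * |yy u a z|)) : ∀ z, ψ z = 0 := by
  intro z₀
  have hγ1 : max γ 0 < 1 := max_lt hγ one_pos
  -- the exponent as a function of `s = 2 + ‖z₀‖ + R`
  have h1 : Tendsto (fun s : ℝ => |C| * s ^ (max γ 0) - c / 2 * s) atTop atBot := by
    have h2 : Tendsto (fun s : ℝ => |C| * s ^ (-(1 - max γ 0)) - c / 2) atTop (𝓝 (|C| * 0 - c / 2)) :=
      ((tendsto_rpow_neg_atTop (by linarith : 0 < 1 - max γ 0)).const_mul _).sub_const _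
    have h3 : |C| * 0 - c / 2 < 0 := by
      rw [mul_zero, zero_sub]
      linarith
    have h4 := Filter.Tendsto.atTop_mul_neg h3 tendsto_id h2
    refine h4.congr' ?_
    filter_upwards [eventually_gt_atTop (0 : ℝ)] with s hs
    have h5 : s * s ^ (-(1 - max γ 0)) = s ^ (max γ 0) := by
      conv_lhs => rw [← Real.rpow_one s, ← Real.rpow_mul hs.le, one_mul, ← Real.rpow_add hs]
      congr 1
      ring
    show s * (|C| * s ^ (-(1 - max γ 0)) - c / 2) = _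
    rw [mul_sub, ← mul_assoc, mul_comm s |C|, mul_assoc, h5]
    ring
  have h2 : Tendsto (fun R : ℝ => |C| * (2 + ‖z₀‖ + R) ^ (max γ 0) - c / 2 * R + 2 * c * ‖z₀ - a‖) atTop atBot := by
    have h3 : Tendsto (fun R : ℝ => 2 + ‖z₀‖ + R) atTop atTop := tendsto_atTop_add_const_left _ _ tendsto_id
    have h4 := (h1.comp h3).atBot_add (tendsto_const_nhds (x := c / 2 * (2 + ‖z₀‖) + 2 * c * ‖z₀ - a‖))
    refine h4.congr fun R => ?_
    show |C| * (2 + ‖z₀‖ + R) ^ (max γ 0) - c / 2 * (2 + ‖z₀‖ + R) + (c / 2 * (2 + ‖z₀‖) + 2 * c * ‖z₀ - a‖) = _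
    ring
  have h3 : Tendsto (fun R : ℝ => Real.exp (|C| * (2 + ‖z₀‖ + R) ^ (max γ 0) - c / 2 * R + 2 * c * ‖z₀ - a‖)) atTop (𝓝 0) :=
    Real.tendsto_exp_atBot.comp h2
  have h4 : ‖ψ z₀‖ ≤ 0 := by
    refine ge_of_tendsto h3 ?_
    filter_upwards [eventually_gt_atTop (0 : ℝ), eventually_ge_atTop ‖z₀ - a‖] with R hR hRa
    exact jen_bound hψ hu hc (le_max_left _ _) (le_max_right _ _) h z₀ hR hRa
  exact norm_le_zero_iff.1 h4

end Pool.Agent.SR2.F
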