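import Pool.Agent.SR2.Defs

/-!
# SR2 F Tan: the limit of the difference quotients is tangent

`exists_retr`: the map `y ↦ (l y / l (σ (τ y))) • σ (τ y)`, `l` linear, `l x₀ ≠ 0`, is an analytic retraction onto the surface near `x₀`.
`tan_lim`: strict differentiability of the retraction at `x₀`.
-/

set_option autoImplicit false

open Topology Filter Metric Asymptotics

noncomputable section

namespace Pool.Agent.SR2.F

open Pool.Agent.H36.BP (EN fs)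
open Pool.Agent.H14.PP (Tan)
open Pool.Agent.H17BP (Surface)

variable {N : ℕ} {G : Geo N}

/-- an analytic retraction onto the surface -/
theorem exists_retr {X : Set (EN N)} (hX : Surface X) {x₀ : EN N} (hx₀ : x₀ ∈ X) :
    ∃ Φ : EN N → EN N, AnalyticAt ℂ Φ x₀ ∧ (∀ᶠ y in 𝓝 x₀, Φ y ∈ X) ∧ ∀ᶠ y in 𝓝 x₀, y ∈ X → Φ y = y := by
  obtain ⟨σ, τ, hc, hσ0⟩ := hX.chart x₀ hx₀
  have hτ0 : τ x₀ = 0 := by
    have h1 := hc.left.self_of_nhds
    rwa [hσ0] at h1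
  have hx0 : x₀ ≠ 0 := by
    rw [← hσ0]
    exact hc.ne
  have hτa : AnalyticAt ℂ τ x₀ := by
    have h1 := hc.τ_an
    rwa [hσ0] at h1
  have hσa : AnalyticAt ℂ σ (τ x₀) := by
    rw [hτ0]
    exact hc.σ_an
  have hστ : AnalyticAt ℂ (fun y => σ (τ y)) x₀ := hσa.comp hτa
  have hστ0 : σ (τ x₀) = x₀ := by rw [hτ0, hσ0]
  set l : EN N →L[ℂ] ℂ := innerSL ℂ x₀ with hl
  have hlx : l x₀ ≠ 0 := by
    rw [hl, innerSL_apply_apply]
    exact inner_self_ne_zero.2 hx0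
  have hla : AnalyticAt ℂ (fun y => l (σ (τ y))) x₀ := (l.analyticAt _).comp hστ
  have hl0 : l (σ (τ x₀)) ≠ 0 := by rwa [hστ0]
  have hca : AnalyticAt ℂ (fun y => l y / l (σ (τ y))) x₀ := (l.analyticAt x₀).div hla hl0
  have hc1 : l x₀ / l (σ (τ x₀)) ≠ 0 := div_ne_zero hlx hl0
  refine ⟨fun y => (l y / l (σ (τ y))) • σ (τ y), hca.smul hστ, ?_, ?_⟩
  · have h1 : Tendsto τ (𝓝 x₀) (𝓝 0) := by
      have h2 := hτa.continuousAt.tendsto
      rwa [hτ0] at h2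
    filter_upwards [h1.eventually hc.σ_mem, hca.continuousAt.eventually_ne hc1] with y hy hy'
    exact hX.smul _ hy _ hy'
  · have h1 := hc.right
    rw [hσ0] at h1
    filter_upwards [h1, hla.continuousAt.eventually_ne hl0] with y hy hy' hyX
    obtain ⟨c, hc0, hc2⟩ := hy hyX
    have h3 : l y = c * l (σ (τ y)) := by
      conv_lhs => rw [hc2]
      rw [map_smul, smul_eq_mul]
    show (l y / l (σ (τ y))) • σ (τ y) = y
    rw [h3, mul_div_assoc, div_self hy', mul_one]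
    exact hc2.symm

/-- difference quotients along two sequences with the same limit -/
theorem strict_lim {E : Type*} [NormedAddCommGroup E] [NormedSpace ℂ E] {f : EN N → E} {f' : EN N →L[ℂ] E} {𝒰 : Filter ℕ} {x y : ℕ → EN N} {x₀ v : EN N}
    {ℓ : ℕ → ℝ} (hf : HasStrictFDerivAt f f' x₀) (hℓ : ∀ k, 0 < ℓ k) (hℓ0 : Tendsto ℓ 𝒰 (𝓝 0)) (h1 : Tendsto x 𝒰 (𝓝 x₀))
    (h2 : Tendsto (fun k => ((ℓ k : ℂ)⁻¹) • (y k - x k)) 𝒰 (𝓝 v)) :
    Tendsto y 𝒰 (𝓝 x₀) ∧ Tendsto (fun k => ((ℓ k : ℂ)⁻¹) • (f (y k) - f (x k))) 𝒰 (𝓝 (f' v)) := by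
  have hℓc : ∀ k, (ℓ k : ℂ) ≠ 0 := fun k => by exact_mod_cast (hℓ k).ne'
  have hℓ0' : Tendsto (fun k => (ℓ k : ℂ)) 𝒰 (𝓝 0) := by
    have h3 := (Complex.continuous_ofReal.tendsto 0).comp hℓ0
    rwa [Complex.ofReal_zero] at h3
  have hyx : ∀ k, y k = x k + (ℓ k : ℂ) • (((ℓ k : ℂ)⁻¹) • (y k - x k)) := by
    intro k
    rw [smul_smul, mul_inv_cancel₀ (hℓc k), one_smul]
    abel
  have hy : Tendsto y 𝒰 (𝓝 x₀) := by
    have h3 : Tendsto (fun k => x k + (ℓ k : ℂ) • (((ℓ k : ℂ)⁻¹) • (y k - x k))) 𝒰 (𝓝 (x₀ + (0 : ℂ) • v)) := h1.add (hℓ0'.smul h2)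
    rw [zero_smul, add_zero] at h3
    exact h3.congr fun k => (hyx k).symm
  refine ⟨hy, ?_⟩
  have h3 : (fun k => f (y k) - f (x k) - f' (y k - x k)) =o[𝒰] fun k => y k - x k :=
    (hasStrictFDerivAt_iff_isLittleO.1 hf).comp_tendsto (hy.prodMk_nhds h1)
  have h4 : (fun k => y k - x k) =O[𝒰] fun k => (ℓ k : ℂ) := by
    have h5 : (fun k => ((ℓ k : ℂ)⁻¹) • (y k - x k)) =O[𝒰] fun _ => (1 : ℂ) := h2.isBigO_one ℂ
    have h6 := (isBigO_refl (fun k => (ℓ k : ℂ)) 𝒰).smul h5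
    refine (h6.congr (fun k => ?_) fun k => ?_)
    · rw [smul_smul, mul_inv_cancel₀ (hℓc k), one_smul]
    · rw [smul_eq_mul, mul_one]
  have h7 : (fun k => f (y k) - f (x k) - f' (y k - x k)) =o[𝒰] fun k => (ℓ k : ℂ) := h3.trans_isBigO h4
  have h8 : Tendsto (fun k => ((ℓ k : ℂ)⁻¹) • (f (y k) - f (x k) - f' (y k - x k))) 𝒰 (𝓝 0) := by
    rw [tendsto_zero_iff_norm_tendsto_zero]
    have h9 := (isLittleO_norm_norm.2 h7).tendsto_div_nhds_zero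
    refine h9.congr fun k => ?_
    rw [norm_smul, norm_inv, div_eq_inv_mul]
  have h9 := h8.add ((f'.continuous.tendsto v).comp h2)
  rw [zero_add] at h9
  refine h9.congr fun k => ?_
  show ((ℓ k : ℂ)⁻¹) • (f (y k) - f (x k) - f' (y k - x k)) + f' (((ℓ k : ℂ)⁻¹) • (y k - x k)) = _
  rw [map_smul, ← smul_add, sub_add_cancel]

/-- the tangent vectors are fixed by the derivative of the retraction -/
theorem retr_tan {X : Set (EN N)} {Φ : EN N → EN N} {x v : EN N} (hΦ : DifferentiableAt ℂ Φ x) (h : ∀ᶠ y in 𝓝 x, y ∈ X → Φ y = y) (hv : Tan X x v) :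
    fderiv ℂ Φ x v = v := by
  obtain ⟨γ, ⟨h1, h2⟩, rfl, rfl⟩ := hv
  have h3 : HasDerivAt (fun t => Φ (γ t)) (fderiv ℂ Φ (γ 0) (deriv γ 0)) 0 :=
    hΦ.hasFDerivAt.comp_hasDerivAt (0 : ℂ) h1.differentiableAt.hasDerivAt
  have h4 : (fun t => Φ (γ t)) =ᶠ[𝓝 0] γ := by
    filter_upwards [h2, h1.continuousAt.tendsto.eventually h] with t ht ht'
    exact ht' ht
  exact (h3.congr_of_eventuallyEq h4.symm).unique h1.differentiableAt.hasDerivAt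

/-- **Module Tan.** -/
theorem tan_lim (hG : G.Ok) (𝒰 : Ultrafilter ℕ) {x y : ℕ → EN N} {x₀ v : EN N} {ℓ : ℕ → ℝ} (hx : ∀ k, x k ∈ G.K ∧ G.p (x k) = 1)
    (hy : ∀ k, y k ∈ G.K ∧ G.p (y k) = 1) (hx₀ : x₀ ∈ G.K) (hℓ : ∀ k, 0 < ℓ k) (hℓ0 : Tendsto ℓ 𝒰 (𝓝 0)) (h1 : Tendsto x 𝒰 (𝓝 x₀))
    (h2 : Tendsto (fun k => ((ℓ k : ℂ)⁻¹) • (y k - x k)) 𝒰 (𝓝 v)) : Tan G.X x₀ v ∧ fderiv ℂ G.p x₀ v = 0 := by
  have hKX : ∀ z ∈ G.K, z ∈ G.X := fun z hz => ((hG.aff.mem z).1 hz).1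
  obtain ⟨Φ, hΦa, hΦX, hΦ⟩ := exists_retr hG.surf (hKX x₀ hx₀)
  obtain ⟨h3, h4⟩ := strict_lim hΦa.hasStrictFDerivAt hℓ hℓ0 h1 h2
  have h5 : fderiv ℂ Φ x₀ v = v := by
    refine tendsto_nhds_unique h4 (h2.congr' ?_)
    filter_upwards [h1.eventually hΦ, h3.eventually hΦ] with k hk hk'
    rw [hk (hKX _ (hx k).1), hk' (hKX _ (hy k).1)]
  have hx₀' : Φ x₀ = x₀ := hΦ.self_of_nhds (hKX x₀ hx₀)
  constructor
  · have hlin : AnalyticAt ℂ (fun t : ℂ => x₀ + t • v) 0 := analyticAt_const.add (analyticAt_id.smul analyticAt_const)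
    have hlin0 : x₀ + (0 : ℂ) • v = x₀ := by rw [zero_smul, add_zero]
    have h6 : AnalyticAt ℂ Φ (x₀ + (0 : ℂ) • v) := by rwa [hlin0]
    have h7 : Tendsto (fun t : ℂ => x₀ + t • v) (𝓝 0) (𝓝 x₀) := by
      have h8 := hlin.continuousAt.tendsto
      rwa [hlin0] at h8
    refine ⟨fun t => Φ (x₀ + t • v), ⟨AnalyticAt.comp (g := Φ) (f := fun t : ℂ => x₀ + t • v) h6 hlin, h7.eventually hΦX⟩, ?_, ?_⟩
    · show Φ (x₀ + (0 : ℂ) • v) = x₀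
      rw [hlin0, hx₀']
    · have h8 : HasDerivAt (fun t : ℂ => x₀ + t • v) v 0 := by
        have h9 := ((hasDerivAt_id (0 : ℂ)).smul_const v).const_add x₀
        rwa [one_smul] at h9
      have h9 : HasFDerivAt Φ (fderiv ℂ Φ x₀) (x₀ + (0 : ℂ) • v) := by
        rw [hlin0]
        exact hΦa.differentiableAt.hasFDerivAt
      exact (h9.comp_hasDerivAt (0 : ℂ) h8).deriv.trans h5
  · obtain ⟨-, h6⟩ := strict_lim (hG.aff.an () x₀).hasStrictFDerivAt hℓ hℓ0 h1 h2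
    refine tendsto_nhds_unique h6 ?_
    refine tendsto_const_nhds.congr fun k => ?_
    show (0 : ℂ) = ((ℓ k : ℂ)⁻¹) • (G.p (y k) - G.p (x k))
    rw [(hx k).2, (hy k).2, sub_self, smul_zero]

end Pool.Agent.SR2.F
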