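import Pool.Agent.SR2.F.Lin
import Pool.Agent.SR2.F.Tan
import Pool.Agent.SR2.F.Psi
import Pool.Agent.SR2.F.Jen
import Pool.Agent.SR2.F.Cst
import Pool.Agent.SR2.AGd
import Pool.Agent.SR2.ALbd

/-!
# SR2 F Rigid: rigidity
-/

set_option autoImplicit false

open Topology Filter Metric

noncomputable section

namespace Pool.Agent.SR2.F

open Pool.Agent.H36.BP (EN fs)
open Pool.Agent.H14.PP (Tan)
open Pool.Agent.SR2.G (Str RigidF)
open Geo (Gd)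

variable {N : ℕ} {G : Geo N} {T : Set (EN N)} {rho : EN N → ℝ} {M : ℕ} {c₀ C δ γ A' B : ℝ} {g : (ℂ → EN N) → ℂ → ℝ}

private theorem pw_pos (γ : ℝ) {r : ℝ} (hr : 0 ≤ r) : 0 < pw γ r := Real.rpow_pos_of_pos (by linarith) _

private theorem one_le_pw {γ : ℝ} (hγ : 0 ≤ γ) {r : ℝ} (hr : 0 ≤ r) : 1 ≤ pw γ r := Real.one_le_rpow (by linarith) hγ

private theorem pw_mono {γ γ' : ℝ} (h : γ ≤ γ') {r : ℝ} (hr : 0 ≤ r) : pw γ r ≤ pw γ' r := Real.rpow_le_rpow_of_exponent_le (by linarith) h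

private theorem pw_sub_le {γ : ℝ} (hγ : 0 ≤ γ) (hγ1 : γ ≤ 1) (a z : ℂ) : pw γ ‖z - a‖ ≤ (1 + ‖a‖) * pw γ ‖z‖ := by
  unfold pw
  have h1 : 2 + ‖z - a‖ ≤ (1 + ‖a‖) * (2 + ‖z‖) := by
    have := norm_sub_le z a
    nlinarith [norm_nonneg z, norm_nonneg a, mul_nonneg (norm_nonneg z) (norm_nonneg a)]
  have h2 : 1 ≤ 1 + ‖a‖ := by linarith [norm_nonneg a]
  calc (2 + ‖z - a‖) ^ γ ≤ ((1 + ‖a‖) * (2 + ‖z‖)) ^ γ := Real.rpow_le_rpow (by positivity) h1 hγ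
    _ = (1 + ‖a‖) ^ γ * (2 + ‖z‖) ^ γ := Real.mul_rpow (by positivity) (by positivity)
    _ ≤ (1 + ‖a‖) ^ (1 : ℝ) * (2 + ‖z‖) ^ γ := by
      refine mul_le_mul_of_nonneg_right (Real.rpow_le_rpow_of_exponent_le h2 hγ1) (by positivity)
    _ = (1 + ‖a‖) * (2 + ‖z‖) ^ γ := by rw [Real.rpow_one]

/-- the growth of a curve away from its line -/
private theorem log_ge (hG : G.Ok) (hγ : 0 ≤ γ) (hγ1 : γ ≤ 1) (hB : 0 ≤ B) {F : ℂ → EN N} (hK : ∀ z, F z ∈ G.K) (hp : ∀ z, G.p (F z) = 1) {a u : ℂ} {β β' : G.ι → ℝ}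
    (hf : G.Fits F a u β β' (fun z => B * pw γ ‖z - a‖) Set.univ) (h1 : A' ≤ ∑ i, β i) (h2 : A' ≤ ∑ i, β' i) :
    ∃ Q : ℝ, 0 ≤ Q ∧ ∀ z, A' / G.h * |yy u a z| - Q * pw γ ‖z‖ ≤ Real.log ‖F z‖ := by
  obtain ⟨C₁, hC₁⟩ := hG.cmp
  have hh : (0 : ℝ) < G.h := by
    have h3 : 1 ≤ G.h := hG.aff.pos ()
    exact_mod_cast h3
  have hC0 : 0 ≤ C₁ := (abs_nonneg _).trans (hC₁ _ (hK 0))
  refine ⟨(C₁ + (∑ i, (G.b i : ℝ)) * B * (1 + ‖a‖)) / G.h, by positivity, fun z => ?_⟩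
  have h3 := hC₁ _ (hK z)
  rw [hp z, norm_one, Real.log_one, sub_zero, abs_le] at h3
  have h4 : ∀ i, lin u a (β i) (β' i) z - B * pw γ ‖z - a‖ ≤ G.lam i (F z) := fun i => by
    have := hf.2.2 z (Set.mem_univ z) i
    rw [abs_le] at this
    linarith [this.1]
  have hl0 : ∀ i, 0 ≤ lin u a (β i) (β' i) z := fun i => by
    unfold lin
    exact add_nonneg (mul_nonneg (hf.2.1 i).1 (le_max_right _ _)) (mul_nonneg (hf.2.1 i).2 (le_max_right _ _))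
  have h5 : ∑ i, (lin u a (β i) (β' i) z) - (∑ i, (G.b i : ℝ)) * (B * pw γ ‖z - a‖) ≤ ∑ i, G.b i * G.lam i (F z) := by
    rw [Finset.sum_mul, ← Finset.sum_sub_distrib]
    refine Finset.sum_le_sum fun i _ => ?_
    have hb : (1 : ℝ) ≤ G.b i := by exact_mod_cast hG.b_pos i
    have h6 := mul_le_mul_of_nonneg_left (h4 i) (by linarith : (0 : ℝ) ≤ G.b i)
    have h7 := mul_le_mul_of_nonneg_right hb (hl0 i)
    rw [mul_sub] at h6
    linarith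
  have h6 : A' * |yy u a z| ≤ ∑ i, lin u a (β i) (β' i) z := by
    unfold lin
    rw [Finset.sum_add_distrib, ← Finset.sum_mul, ← Finset.sum_mul]
    rcases le_total 0 (yy u a z) with h | h
    · rw [abs_of_nonneg h, max_eq_left h, max_eq_right (by linarith), mul_zero, add_zero]
      exact mul_le_mul_of_nonneg_right h1 h
    · rw [abs_of_nonpos h, max_eq_right h, max_eq_left (by linarith), mul_zero, zero_add]
      exact mul_le_mul_of_nonneg_right h2 (by linarith)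
  have h7 : (∑ i, (G.b i : ℝ)) * (B * pw γ ‖z - a‖) ≤ (∑ i, (G.b i : ℝ)) * (B * ((1 + ‖a‖) * pw γ ‖z‖)) := by
    refine mul_le_mul_of_nonneg_left (mul_le_mul_of_nonneg_left (pw_sub_le hγ hγ1 a z) hB) (by positivity)
  have h8 := one_le_pw hγ (norm_nonneg z)
  have h9 : G.h * Real.log ‖F z‖ ≥ A' * |yy u a z| - (C₁ + (∑ i, (G.b i : ℝ)) * B * (1 + ‖a‖)) * pw γ ‖z‖ := by
    have h10 : C₁ ≤ C₁ * pw γ ‖z‖ := le_mul_of_one_le_right hC0 h8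
    have h11 := h3.1
    nlinarith
  have h12 : A' / G.h * |yy u a z| - (C₁ + (∑ i, (G.b i : ℝ)) * B * (1 + ‖a‖)) / G.h * pw γ ‖z‖ =
      (A' * |yy u a z| - (C₁ + (∑ i, (G.b i : ℝ)) * B * (1 + ‖a‖)) * pw γ ‖z‖) / G.h := by
    field_simp
  rw [h12, div_le_iff₀ hh]
  linarith

private theorem deriv_ne (hG : G.Ok) {q : G.J → ℂ} {F : ℂ → EN N} (hF : G.Cl T q F) (z : ℂ) : deriv F z ≠ 0 := by
  intro h0
  have hT : Tan G.X (F z) (deriv F z) := tan hG hF.ent.1 hF.ent.mem z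
  have hq : ∀ j, q j = 0 := fun j => by
    have h1 := hF.val j z
    have h2 := hG.w_hom j (F z) (hF.ent.mem z) (deriv F z) hT 0
    rw [zero_smul, zero_pow (by have := hG.one_m j; omega), zero_mul] at h2
    rw [h0, h2] at h1
    exact h1.symm
  have h1 := hF.one
  unfold Geo.nq at h1
  have h2 : ∑ j, ‖q j‖ ^ ((G.m j : ℝ)⁻¹) = 0 := by
    refine Finset.sum_eq_zero fun j _ => ?_
    rw [hq j, norm_zero, Real.zero_rpow]
    have : (1 : ℝ) ≤ G.m j := by exact_mod_cast hG.one_m j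
    positivity
  rw [h2] at h1
  exact zero_ne_one h1

private theorem fderiv_p_curve (hG : G.Ok) {F : ℂ → EN N} (hF : Differentiable ℂ F) (hp : ∀ z, G.p (F z) = 1) (z : ℂ) : fderiv ℂ G.p (F z) (deriv F z) = 0 := by
  have h1 := ((hG.aff.an () (F z)).differentiableAt.hasFDerivAt).comp_hasDerivAt z (hF z).hasDerivAt
  have h2 : (G.P () ∘ F) = fun _ => (1 : ℂ) := by
    funext w
    exact hp w
  rw [h2] at h1
  exact h1.unique (hasDerivAt_const z (1 : ℂ))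

theorem rigid_f (S : Base G T rho M c₀ C δ g) (hs : Str G T rho δ γ A' B) : RigidF G T := by
  intro 𝒰 h𝒰 q F H l F₀ V γ₁ hγ₁ hF hH h0 hl hl0 h1 h2 hV
  have hG := S.ok
  obtain ⟨B₁, hV⟩ := hV
  have hFd : ∀ k, Differentiable ℂ (F k) := fun k => (hF k).ent.1
  have hHd : ∀ k, Differentiable ℂ (H k) := fun k => (hH k).ent.1
  have hF0 : Differentiable ℂ F₀ := h0.ent.1
  have hK0 : ∀ z, F₀ z ∈ G.K := h0.ent.mem
  have hVd : Differentiable ℂ V := by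
    rw [← differentiableOn_univ]
    refine h2.differentiableOn (Eventually.of_forall fun k => ?_) isOpen_univ
    exact fun z _ => (((hHd k z).sub (hFd k z)).const_smul ((l k : ℂ)⁻¹)).differentiableWithinAt
  have hT : ∀ z, Tan G.X (F₀ z) (V z) ∧ fderiv ℂ G.p (F₀ z) (V z) = 0 := fun z =>
    tan_lim hG 𝒰 (fun k => ⟨(hF k).ent.mem z, (hF k).nm z⟩) (fun k => ⟨(hH k).ent.mem z, (hH k).nm z⟩) (hK0 z) hl hl0
      (h1.tendsto_at (Set.mem_univ z)) (h2.tendsto_at (Set.mem_univ z))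
  -- the functions `Ψ`
  obtain ⟨a, ha⟩ := exists_good hG S.met h0
  obtain ⟨u, β, β', hfit, hβ, hβ'⟩ := hs.fits q F₀ h0 a ha
  obtain ⟨Q, hQ, hlog⟩ := log_ge hG hs.γ_pos.le hs.γ_lt.le hs.B_pos.le hK0 h0.nm hfit hβ hβ'
  obtain ⟨B₂, hB₂, hL⟩ := L_bdd S
  obtain ⟨B₃, hB₃, hΨ⟩ := psi_le hG
  have hh : (0 : ℝ) < G.h := by
    have h3 : 1 ≤ G.h := hG.aff.pos ()
    exact_mod_cast h3
  have hjΩ : (1 : ℝ) ≤ G.jΩ := by exact_mod_cast hG.one_jΩ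
  have key : ∀ α z, G.Ω α (F₀ z) (deriv F₀ z) (V z) = 0 := by
    intro α
    refine entire_zero (a := a) (psi_diff hG α hF0 hK0 hVd fun z => (hT z).1) hfit.1 (c := A' / G.h)
      (C := Real.log (1 + B₃ * B₂ ^ G.mΩ) + G.mΩ * |B₁| + G.jΩ * Q) (γ := max (max γ γ₁) 0) (div_pos hs.A'_pos hh)
      (max_lt (max_lt hs.γ_lt hγ₁) one_pos) fun z => ?_
    have hn : 0 ≤ ‖z‖ := norm_nonneg z
    have hm0 : (0 : ℝ) ≤ max (max γ γ₁) 0 := le_max_right _ _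
    have hp1 := one_le_pw hm0 hn
    have hp2 : pw γ ‖z‖ ≤ pw (max (max γ γ₁) 0) ‖z‖ := pw_mono ((le_max_left _ _).trans (le_max_left _ _)) hn
    have hp3 : pw γ₁ ‖z‖ ≤ pw (max (max γ γ₁) 0) ‖z‖ := pw_mono ((le_max_right _ _).trans (le_max_left _ _)) hn
    have h3 := hΨ α (F₀ z) (hK0 z) (h0.nm z) (deriv F₀ z) (V z) (tan hG hF0 hK0 z) (hT z).1 (Real.exp (B₁ * pw γ₁ ‖z‖)) (Real.exp_pos _).le (hV z).1 (hV z).2
    have hLz := hL q F₀ h0 z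
    have hL0 : 0 ≤ G.L (F₀ z) (deriv F₀ z) := Pool.Agent.SR2.L_nonneg _ _
    have hFn : 0 < ‖F₀ z‖ := norm_pos_iff.2 (Pool.Agent.SR2.ne0 hG (hK0 z))
    have h4 : B₃ * G.L (F₀ z) (deriv F₀ z) ^ G.mΩ ≤ Real.exp (Real.log (1 + B₃ * B₂ ^ G.mΩ)) := by
      rw [Real.exp_log (by positivity)]
      have := mul_le_mul_of_nonneg_left (pow_le_pow_left₀ hL0 hLz G.mΩ) hB₃
      linarith
    have h5 : (‖F₀ z‖ ^ G.jΩ)⁻¹ ≤ Real.exp (G.jΩ * (Q * pw γ ‖z‖) - A' / G.h * |yy u a z|) := by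
      have h6 : ‖F₀ z‖ ^ G.jΩ = Real.exp (G.jΩ * Real.log ‖F₀ z‖) := by
        rw [Real.exp_nat_mul, Real.exp_log hFn]
      rw [h6, ← Real.exp_neg, Real.exp_le_exp]
      have h7 := mul_le_mul_of_nonneg_left (hlog z) (by linarith : (0 : ℝ) ≤ G.jΩ)
      have h8 : A' / G.h * |yy u a z| ≤ G.jΩ * (A' / G.h * |yy u a z|) :=
        le_mul_of_one_le_left (mul_nonneg (div_pos hs.A'_pos hh).le (abs_nonneg _)) hjΩ
      rw [mul_sub] at h7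
      linarith
    have h9 : Real.exp (B₁ * pw γ₁ ‖z‖) ^ G.mΩ = Real.exp (G.mΩ * (B₁ * pw γ₁ ‖z‖)) := by rw [Real.exp_nat_mul]
    refine h3.trans ?_
    rw [div_eq_mul_inv, h9]
    have h10 : B₃ * G.L (F₀ z) (deriv F₀ z) ^ G.mΩ * Real.exp (G.mΩ * (B₁ * pw γ₁ ‖z‖)) * (‖F₀ z‖ ^ G.jΩ)⁻¹ ≤
        Real.exp (Real.log (1 + B₃ * B₂ ^ G.mΩ)) * Real.exp (G.mΩ * (B₁ * pw γ₁ ‖z‖)) * Real.exp (G.jΩ * (Q * pw γ ‖z‖) - A' / G.h * |yy u a z|) := by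
      refine mul_le_mul (mul_le_mul_of_nonneg_right h4 (Real.exp_pos _).le) h5 (by positivity) (by positivity)
    refine h10.trans ?_
    rw [← Real.exp_add, ← Real.exp_add, Real.exp_le_exp]
    have hlog1 : 0 ≤ Real.log (1 + B₃ * B₂ ^ G.mΩ) := Real.log_nonneg (by
      have : 0 ≤ B₃ * B₂ ^ G.mΩ := by positivity
      linarith)
    have i1 : Real.log (1 + B₃ * B₂ ^ G.mΩ) ≤ Real.log (1 + B₃ * B₂ ^ G.mΩ) * pw (max (max γ γ₁) 0) ‖z‖ := le_mul_of_one_le_right hlog1 hp1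
    have i2 : (G.mΩ : ℝ) * (B₁ * pw γ₁ ‖z‖) ≤ G.mΩ * |B₁| * pw (max (max γ γ₁) 0) ‖z‖ := by
      rw [mul_assoc]
      refine mul_le_mul_of_nonneg_left ?_ (Nat.cast_nonneg _)
      exact (mul_le_mul_of_nonneg_right (le_abs_self _) (pw_pos _ hn).le).trans (mul_le_mul_of_nonneg_left hp3 (abs_nonneg _))
    have i3 : (G.jΩ : ℝ) * (Q * pw γ ‖z‖) ≤ G.jΩ * Q * pw (max (max γ γ₁) 0) ‖z‖ := by
      rw [mul_assoc]
      exact mul_le_mul_of_nonneg_left (mul_le_mul_of_nonneg_left hp2 hQ) (Nat.cast_nonneg _)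
    nlinarith
  -- proportionality
  have hd0 : ∀ z, deriv F₀ z ≠ 0 := deriv_ne hG h0
  have hc : ∀ z, ∃ c : ℂ, V z = c • deriv F₀ z := fun z =>
    lin_dep hG (hK0 z) (tan hG hF0 hK0 z) (hT z).1 (fderiv_p_curve hG hF0 h0.nm z) (hT z).2 (hd0 z) fun α => key α z
  choose c hc using hc
  have hF0' : Differentiable ℂ (deriv F₀) := fun z => (hF0.analyticAt z).deriv.differentiableAt
  have hcd : Differentiable ℂ c := by
    intro z₀
    have h3 : DifferentiableAt ℂ (fun z => inner ℂ (deriv F₀ z₀) (deriv F₀ z)) z₀ :=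
      (innerSL ℂ (deriv F₀ z₀)).differentiableAt.comp z₀ (hF0' z₀)
    have h4 : DifferentiableAt ℂ (fun z => inner ℂ (deriv F₀ z₀) (V z)) z₀ :=
      (innerSL ℂ (deriv F₀ z₀)).differentiableAt.comp z₀ (hVd z₀)
    have h5 : inner ℂ (deriv F₀ z₀) (deriv F₀ z₀) ≠ 0 := by
      rw [Ne, inner_self_eq_zero]
      exact hd0 z₀
    have h6 : ∀ᶠ z in 𝓝 z₀, inner ℂ (deriv F₀ z₀) (deriv F₀ z) ≠ 0 := h3.continuousAt.eventually_ne h5
    refine (h4.div h3 h5).congr_of_eventuallyEq ?_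
    filter_upwards [h6] with z hz
    show c z = inner ℂ (deriv F₀ z₀) (V z) / inner ℂ (deriv F₀ z₀) (deriv F₀ z)
    rw [hc z, inner_smul_right]
    field_simp
  have hc0 := deriv_c_zero hG 𝒰 hF hH h0 hl hl0 h1 h2 hcd hc
  refine ⟨c 0, fun z => ?_⟩
  rw [hc z, is_const_of_deriv_eq_zero hcd hc0 z 0]

end Pool.Agent.SR2.F
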