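import Pool.Agent.SR2.F.Cmp
import Pool.Agent.SR2.F.Pot
import Pool.Agent.SR2.F.PotE
import Pool.Agent.SR2.F.LipE
import Pool.Agent.SR2.F.CmpInf
import Pool.Agent.SR2.G.TubC
import Pool.Agent.SR2.Bas

/-!
# SR2 F Tube: the difference of two curves which are close along a chain
-/

set_option autoImplicit false

open Topology Filter Metric Laplacian InnerProductSpace

noncomputable section

namespace Pool.Agent.SR2.F

open Pool.Agent.H36.BP (EN fs)
open Pool.Agent.SR2.G (Mem Str Facts TubeBd FirstP RigidF IsChain exists_good_near tube_cover)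
open Geo (Gd)


theorem Pot.mono {r d : ℂ → ℝ} {κ κ' c B B' : ℝ} (h : Pot r d κ c B) (hκ : κ ≤ κ') (hB : B ≤ B') : Pot r d κ' c B' where
  smooth := h.smooth
  one_le := h.one_le
  d0 := h.d0
  lip := h.lip
  le z := (h.le z).trans (mul_le_mul_of_nonneg_right hB (by linarith [h.d0 z]))
  lower z hz := h.lower z (hκ.trans hz)
  lap z hz := (h.lap z (hκ.trans hz)).trans (div_le_div_of_nonneg_right hB (sq_nonneg _))
  grad z hz := h.grad z (hκ.trans hz)

theorem one_le_pw {γ r : ℝ} (hγ : 0 ≤ γ) (hr : 0 ≤ r) : 1 ≤ pw γ r := Real.one_le_rpow (by linarith) hγ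

theorem pw_add_le {γ r s : ℝ} (hγ : 0 ≤ γ) (hγ1 : γ ≤ 1) (hr : 0 ≤ r) (hs : 0 ≤ s) : pw γ (r + s) ≤ (1 + s) * pw γ r := by
  have e2 : 2 + (r + s) ≤ (1 + s) * (2 + r) := by nlinarith
  calc (2 + (r + s)) ^ γ ≤ ((1 + s) * (2 + r)) ^ γ := Real.rpow_le_rpow (by positivity) e2 hγ
    _ = (1 + s) ^ γ * (2 + r) ^ γ := Real.mul_rpow (by linarith) (by positivity)
    _ ≤ (1 + s) * (2 + r) ^ γ := by
        apply mul_le_mul_of_nonneg_right _ (by positivity)
        calc (1 + s) ^ γ ≤ (1 + s) ^ (1 : ℝ) := Real.rpow_le_rpow_of_exponent_le (by linarith) hγ1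
          _ = 1 + s := Real.rpow_one _

theorem pw_mono {γ r s : ℝ} (hγ : 0 ≤ γ) (hr : 0 ≤ r) (hrs : r ≤ s) : pw γ r ≤ pw γ s :=
  Real.rpow_le_rpow (by linarith) (by linarith) hγ

section

variable {V : Type} [NormedAddCommGroup V] [InnerProductSpace ℂ V] [CompleteSpace V]

/-- `compare`, with the tube and the scaling -/
theorem tube_core {κ c B γ : ℝ} (hκ : 1 ≤ κ) (hc : 0 < c) (hB : 1 ≤ B) (hγ : 0 < γ) (hγ1 : γ < 1) :
    ∃ κ' : ℝ, κ ≤ κ' ∧ ∀ D C₀ Q : ℝ, 0 ≤ D → 0 ≤ C₀ → 0 ≤ Q → ∃ K : ℝ, 0 ≤ K ∧ ∀ r d : ℂ → ℝ, Pot r d κ c B → d 0 ≤ D →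
      ∀ rB : ℂ → ℝ, ContDiff ℝ 2 rB → (∀ z, κ ≤ d z → Δ rB z ≤ B / d z ^ 2) → (∀ z, -Q ≤ rB z) → ∀ U : ℂ → V, Differentiable ℂ U →
        ∀ s ε n Q₀ : ℝ, 0 < s → s ≤ 1 → 0 ≤ ε → 0 ≤ n → 0 ≤ Q₀ →
          (∀ z, d z ≤ κ' → ∃ t : ℝ, t ≤ ‖z‖ + C₀ ∧ ‖U z‖ ≤ s * Real.exp (Q * pw γ ‖z‖ + ε * min t n)) →
            (∀ z, ‖U z‖ ≤ 2 * Real.exp (rB z + Q₀ * pw γ ‖z‖)) →
              ∀ z, ‖U z‖ ≤ s * Real.exp (rB z + K * pw ((1 + γ) / 2) ‖z‖ + K * (ε * Real.log (2 + n)) * (1 + ‖z‖)) := by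
  obtain ⟨κ', hκ', hcmp⟩ := compare (V := V) hκ hc hB
  refine ⟨κ', hκ', fun D C₀ Q hD hC₀ hQ => ?_⟩
  obtain ⟨K, hK, h⟩ := hcmp D γ ((1 + γ) / 2) Q hD hγ (by linarith) (by linarith) hQ
  refine ⟨K + 2 * C₀, by positivity, fun r d hP hd rB h1 h2 h3 U hU s ε n Q₀ hs hs1 hε hn hQ₀ htube hinf z => ?_⟩
  have hlog : (1 : ℝ) / 2 ≤ Real.log (2 + n) := by
    have e1 : Real.log 2 ≤ Real.log (2 + n) := Real.log_le_log (by norm_num) (by linarith)
    have e2 := Real.log_two_gt_d9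
    linarith
  set E : ℝ := ε * (2 * C₀ * Real.log (2 + n)) with hE
  have hE0 : 0 ≤ E := by
    have : 0 ≤ Real.log (2 + n) := by linarith
    positivity
  set a : ℝ := Real.exp (-E) / s with ha
  have ha0 : 0 < a := by positivity
  have hna : ∀ y, ‖(a : ℂ) • U y‖ = a * ‖U y‖ := by
    intro y
    rw [norm_smul, Complex.norm_real, Real.norm_of_nonneg ha0.le]
  have key := h r d hP hd rB h1 h2 h3 (fun z => (a : ℂ) • U z) (hU.const_smul (a : ℂ)) ε n (Q₀ + Real.log 2 + Real.log (1 / s)) hε hn ?_ ?_ z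
  · rw [hna z] at key
    have e1 : ‖U z‖ = s * (Real.exp E * (a * ‖U z‖)) := by
      rw [ha, Real.exp_neg]
      field_simp
    rw [e1]
    apply mul_le_mul_of_nonneg_left _ hs.le
    refine (mul_le_mul_of_nonneg_left key (Real.exp_pos E).le).trans ?_
    rw [← Real.exp_add]
    apply Real.exp_le_exp.2
    have hp : 0 ≤ pw ((1 + γ) / 2) ‖z‖ := by
      have := one_le_pw (γ := (1 + γ) / 2) (by linarith) (norm_nonneg z)
      linarith
    have e2 : E ≤ 2 * C₀ * (ε * Real.log (2 + n)) * (1 + ‖z‖) := by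
      have e3 : E = 2 * C₀ * (ε * Real.log (2 + n)) := by rw [hE]; ring
      rw [e3]
      have e4 : 0 ≤ 2 * C₀ * (ε * Real.log (2 + n)) := by rw [← e3]; exact hE0
      exact le_mul_of_one_le_right e4 (by linarith [norm_nonneg z])
    have e5 : 0 ≤ 2 * C₀ * pw ((1 + γ) / 2) ‖z‖ := by positivity
    have e6 : K * ε * Real.log (2 + n) * (1 + ‖z‖) = K * (ε * Real.log (2 + n)) * (1 + ‖z‖) := by ring
    rw [e6]
    nlinarith
  · intro y hy
    obtain ⟨t, ht, hUy⟩ := htube y hy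
    rw [hna y]
    have e1 : a * ‖U y‖ ≤ Real.exp (-E) * Real.exp (Q * pw γ ‖y‖ + ε * min t n) := by
      calc a * ‖U y‖ ≤ a * (s * Real.exp (Q * pw γ ‖y‖ + ε * min t n)) := mul_le_mul_of_nonneg_left hUy ha0.le
        _ = _ := by rw [ha]; field_simp
    refine e1.trans ?_
    rw [← Real.exp_add]
    apply Real.exp_le_exp.2
    have e2 : min t n ≤ min ‖y‖ n + C₀ := by
      rcases le_total ‖y‖ n with h4 | h4
      · rw [min_eq_left h4]
        exact (min_le_left _ _).trans ht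
      · rw [min_eq_right h4]
        exact (min_le_right _ _).trans (by linarith)
    have e3 : C₀ ≤ 2 * C₀ * Real.log (2 + n) := by nlinarith
    have e4 : ε * min t n ≤ ε * (min ‖y‖ n + 2 * C₀ * Real.log (2 + n)) := mul_le_mul_of_nonneg_left (by linarith) hε
    rw [hE]
    linarith
  · intro y
    rw [hna y]
    have e1 : a ≤ 1 / s := by
      rw [ha]
      exact div_le_div_of_nonneg_right (Real.exp_le_one_iff.2 (by linarith)) hs.le
    have hp := one_le_pw hγ.le (norm_nonneg y)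
    have hl2 : 0 ≤ Real.log 2 := Real.log_nonneg (by norm_num)
    have hls : 0 ≤ Real.log (1 / s) := Real.log_nonneg (by rw [le_div_iff₀ hs]; linarith)
    calc a * ‖U y‖ ≤ (1 / s) * (2 * Real.exp (rB y + Q₀ * pw γ ‖y‖)) := mul_le_mul e1 (hinf y) (norm_nonneg _) (by positivity)
      _ = Real.exp (Real.log (1 / s) + (Real.log 2 + (rB y + Q₀ * pw γ ‖y‖))) := by
          rw [Real.exp_add (Real.log (1 / s)), Real.exp_add (Real.log 2), Real.exp_log (by positivity), Real.exp_log (by norm_num)]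
      _ ≤ Real.exp (rB y + (Q₀ + Real.log 2 + Real.log (1 / s)) * pw γ ‖y‖) := by
          apply Real.exp_le_exp.2
          have e2 : Real.log 2 ≤ Real.log 2 * pw γ ‖y‖ := le_mul_of_one_le_right hl2 hp
          have e3 : Real.log (1 / s) ≤ Real.log (1 / s) * pw γ ‖y‖ := le_mul_of_one_le_right hls hp
          nlinarith

end

variable {N : ℕ} {G : Geo N} {T : Set (EN N)} {rho : EN N → ℝ} {M : ℕ} {c₀ C δ γ A' B : ℝ} {g : (ℂ → EN N) → ℂ → ℝ}

theorem tube_bd (S : Base G T rho M c₀ C δ g) (hf : Facts G T rho δ γ A' B) : TubeBd G T rho δ γ A' B := by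
  have hG := S.ok
  have hγ := hf.str.γ_pos
  have hγ1 := hf.str.γ_lt
  obtain ⟨κ₁, c, B₁, c₁, hκ₁, hc, hB₁, hc₁, hpot⟩ := exists_pot S hf.str
  obtain ⟨κ₂, B₂, hκ₂, hB₂, hpotE⟩ := exists_potE S
  obtain ⟨B₃, hB₃, hlip⟩ := lipE hG
  obtain ⟨B₄, hB₄, hgrow⟩ := hf.growth
  set κ : ℝ := max κ₁ κ₂ with hκ
  set B₀ : ℝ := max B₁ B₂ with hB₀
  have hκ1 : 1 ≤ κ := hκ₁.trans (le_max_left _ _)
  have hB₀1 : 1 ≤ B₀ := hB₁.trans (le_max_left _ _)
  obtain ⟨κ', hκ', hcore⟩ := tube_core (V := EN N) hκ1 hc hB₀1 hγ hγ1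
  obtain ⟨κ'', hκ'', hcoreE⟩ := tube_core (V := EN G.M) hκ1 hc hB₀1 hγ hγ1
  refine ⟨(1 + γ) / 2, by linarith, fun q β β' M₀ L => ?_⟩
  obtain ⟨r₁, C₁, hC₁, hcov⟩ := tube_cover hG hf β β' M₀ L (max κ' κ'')
  refine ⟨max r₁ 0, fun r hr A => ?_⟩
  have hr₁ : r₁ ≤ r := (le_max_left _ _).trans hr
  have hr0 : 0 ≤ r := (le_max_right _ _).trans hr
  set M₁ : ℝ := |M₀| + Real.exp (2 * |A|) with hM₁
  obtain ⟨Q₀, hQ₀, hcmp⟩ := cmp_inf hG hf β β' M₁
  obtain ⟨D₁, hD₁⟩ := hf.gapD (Real.log (max M₀ 1))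
  set D : ℝ := max D₁ 0 with hD
  set s₁ : ℝ := ∑ i, (G.c i : ℝ) with hs₁
  have hs₁0 : 0 ≤ s₁ := by positivity
  set κm : ℝ := max κ' κ'' with hκm
  have hκm0 : 0 ≤ κm := by
    have := le_max_left κ' κ''
    linarith
  set Q : ℝ := |A| * (1 + C₁) + s₁ * (B₄ * (1 + κm)) + s₁ * Q₀ + Real.log (1 + B₃) + c₁ + B₂ with hQ
  have hlogB : 0 ≤ Real.log (1 + B₃) := Real.log_nonneg (by linarith)
  have hQ1 : 0 ≤ |A| * (1 + C₁) := by positivity
  have hQ2 : 0 ≤ s₁ * (B₄ * (1 + κm)) := by positivity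
  have hQ3 : 0 ≤ s₁ * Q₀ := by positivity
  have hQ0 : 0 ≤ Q := by positivity
  obtain ⟨K, hK, hcore⟩ := hcore D C₁ Q (le_max_right _ _) hC₁ hQ0
  obtain ⟨K', hK', hcoreE⟩ := hcoreE D C₁ Q (le_max_right _ _) hC₁ hQ0
  refine ⟨max K K', hK.trans (le_max_left _ _), fun F H z s ε n hF hH hz hs hs1 hε hn htube y => ?_⟩
  -- the basic facts
  have hFne : ∀ w, F w ≠ 0 := fun w => hG.ne_zero (hF.cl.ent.mem w)
  have hHne : ∀ w, H w ≠ 0 := fun w => hG.ne_zero (hH.cl.ent.mem w)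
  have hexpF : ∀ w, Real.exp (Real.log ‖F w‖) = ‖F w‖ := fun w => Real.exp_log (norm_pos_iff.2 (hFne w))
  have hexpH : ∀ w, Real.exp (Real.log ‖H w‖) = ‖H w‖ := fun w => Real.exp_log (norm_pos_iff.2 (hHne w))
  have hexpEF : ∀ i w, Real.exp (Real.log ‖G.E i (F w)‖) = ‖G.E i (F w)‖ := fun i w =>
    Real.exp_log (norm_pos_iff.2 (hG.neE i _ (hF.cl.ent.mem w)))
  have hexpEH : ∀ i w, Real.exp (Real.log ‖G.E i (H w)‖) = ‖G.E i (H w)‖ := fun i w =>
    Real.exp_log (norm_pos_iff.2 (hG.neE i _ (hH.cl.ent.mem w)))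
  have hF0 : ‖F 0‖ ≤ M₀ := by
    have := hz.good 0
    rwa [hz.zero] at this
  have hF0' : ‖F 0‖ ≤ M₁ := by
    rw [hM₁]
    linarith [le_abs_self M₀, Real.exp_pos (2 * |A|)]
  have hpwA : ∀ t : ℝ, 0 ≤ t → A * pw γ t ≤ |A| * pw γ t := fun t ht =>
    mul_le_mul_of_nonneg_right (le_abs_self A) (by linarith [one_le_pw hγ.le ht])
  have hH0 : ‖H 0‖ ≤ M₁ := by
    have h1 := htube 0 0 (by rw [norm_zero]; exact hr0)
    rw [hz.zero, add_zero, Int.cast_zero, abs_zero, min_eq_left hn, mul_zero, add_zero] at h1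
    have h2 : s * Real.exp (A * pw γ 0) ≤ Real.exp (2 * |A|) := by
      have h3 : pw γ 0 ≤ 2 := by
        unfold pw
        rw [add_zero]
        calc (2 : ℝ) ^ γ ≤ (2 : ℝ) ^ (1 : ℝ) := Real.rpow_le_rpow_of_exponent_le (by norm_num) hγ1.le
          _ = 2 := Real.rpow_one _
      have h4 : A * pw γ 0 ≤ 2 * |A| := by
        have := hpwA 0 le_rfl
        have : |A| * pw γ 0 ≤ |A| * 2 := mul_le_mul_of_nonneg_left h3 (abs_nonneg _)
        linarith
      calc s * Real.exp (A * pw γ 0) ≤ 1 * Real.exp (2 * |A|) :=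
            mul_le_mul hs1 (Real.exp_le_exp.2 h4) (Real.exp_pos _).le zero_le_one
        _ = _ := one_mul _
    have h5 : ‖H 0‖ ≤ ‖H 0 - F 0‖ + ‖F 0‖ := by
      have := norm_add_le (H 0 - F 0) (F 0)
      rwa [sub_add_cancel] at this
    have h6 : ‖H 0 - F 0‖ ≤ s * Real.exp (A * pw γ 0) := h1
    rw [hM₁]
    linarith [le_abs_self M₀]
  have hc' := hcmp q F H hF hH hF0' hH0
  have hP := (hpot q F hF.cl).mono (le_max_left κ₁ κ₂) (le_max_left B₁ B₂)
  have hd0 : infDist 0 (Gd rho δ F) ≤ D := by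
    refine le_trans (hD₁ q F hF.cl 0 ?_) (le_max_left _ _)
    exact Real.log_le_log (norm_pos_iff.2 (hFne 0)) (hF0.trans (le_max_left _ _))
  have hlap1 : ∀ z, κ ≤ infDist z (Gd rho δ F) → Δ (fun z => Real.log ‖F z‖) z ≤ B₀ / infDist z (Gd rho δ F) ^ 2 := by
    intro w hw
    have h1 := hP.lap w hw
    have h2 : Δ (fun z => Real.log ‖F z‖ + c₁) w = Δ (fun z => Real.log ‖F z‖) w := by
      have h3 : (fun z => Real.log ‖F z‖ + c₁) = (fun z => Real.log ‖F z‖) + fun _ => c₁ := rfl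
      have h4 : ContDiffAt ℝ 2 (fun z => Real.log ‖F z‖) w := by
        have := (hP.smooth.contDiffAt (x := w)).sub (contDiffAt_const (c := c₁))
        refine this.congr_of_eventuallyEq (Eventually.of_forall fun y => ?_)
        simp
      rw [h3, h4.laplacian_add contDiffAt_const]
      simp
    rwa [h2] at h1
  have hsm1 : ContDiff ℝ 2 (fun z => Real.log ‖F z‖) := by
    have h1 := hP.smooth.sub (contDiff_const (c := c₁))
    have h2 : (fun z => Real.log ‖F z‖) = fun z => (Real.log ‖F z‖ + c₁) - c₁ := by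
      funext w
      ring
    rw [h2]
    exact h1
  -- on the tube
  have htub : ∀ w, infDist w (Gd rho δ F) ≤ κm → ∃ t : ℝ, t ≤ ‖w‖ + C₁ ∧
      ‖H w - F w‖ ≤ s * Real.exp (|A| * (1 + C₁) * pw γ ‖w‖ + ε * min t n) := by
    intro w hw
    obtain ⟨k, w', hw', rfl, hk, -⟩ := hcov q F z hF hz w hw
    refine ⟨|(k : ℝ)|, hk, (htube k w' (hw'.trans hr₁)).trans ?_⟩
    apply mul_le_mul_of_nonneg_left _ hs.le
    apply Real.exp_le_exp.2
    have e1 : A * pw γ |(k : ℝ)| ≤ |A| * ((1 + C₁) * pw γ ‖z k + w'‖) := by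
      refine (hpwA _ (abs_nonneg _)).trans (mul_le_mul_of_nonneg_left ?_ (abs_nonneg _))
      exact (pw_mono hγ.le (abs_nonneg _) hk).trans (pw_add_le hγ.le hγ1.le (norm_nonneg _) hC₁)
    have e2 : Pool.Agent.SR2.G.pw γ |(k : ℝ)| = pw γ |(k : ℝ)| := rfl
    rw [e2]
    linarith
  have hne : (1 : ℝ) ≤ 2 := by norm_num
  constructor
  · have h1 := hcore _ _ hP hd0 (fun z => Real.log ‖F z‖) hsm1 hlap1 (fun w => by
      have h9 : (1 : ℝ) ≤ Real.log ‖F w‖ + c₁ := hP.one_le w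
      have h10 : c₁ ≤ Q := by rw [hQ]; linarith
      linarith) (fun z => H z - F z) (hH.cl.ent.diff.sub hF.cl.ent.diff) s ε n Q₀ hs hs1 hε hn hQ₀ (fun w hw => ?_) (fun w => ?_) y
    · refine h1.trans ?_
      rw [Real.exp_add, Real.exp_add, hexpF y]
      have e1 : K * pw ((1 + γ) / 2) ‖y‖ ≤ max K K' * pw ((1 + γ) / 2) ‖y‖ :=
        mul_le_mul_of_nonneg_right (le_max_left _ _) (by linarith [one_le_pw (γ := (1 + γ) / 2) (by linarith) (norm_nonneg y)])
      have e2 : K * (ε * Real.log (2 + n)) * (1 + ‖y‖) ≤ max K K' * (ε * Real.log (2 + n)) * (1 + ‖y‖) := by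
        have : 0 ≤ Real.log (2 + n) := Real.log_nonneg (by linarith)
        gcongr
        exact le_max_left _ _
      have e3 : Real.exp (K * pw ((1 + γ) / 2) ‖y‖) * Real.exp (K * (ε * Real.log (2 + n)) * (1 + ‖y‖)) ≤
          Real.exp (max K K' * pw ((1 + γ) / 2) ‖y‖ + max K K' * (ε * Real.log (2 + n)) * (1 + ‖y‖)) := by
        rw [← Real.exp_add]
        exact Real.exp_le_exp.2 (add_le_add e1 e2)
      calc s * (‖F y‖ * Real.exp (K * pw ((1 + γ) / 2) ‖y‖) * Real.exp (K * (ε * Real.log (2 + n)) * (1 + ‖y‖)))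
          = s * (Real.exp (K * pw ((1 + γ) / 2) ‖y‖) * Real.exp (K * (ε * Real.log (2 + n)) * (1 + ‖y‖))) * ‖F y‖ := by ring
        _ ≤ _ := by
          apply mul_le_mul_of_nonneg_right _ (norm_nonneg _)
          exact mul_le_mul_of_nonneg_left e3 hs.le
    · obtain ⟨t, ht, hb⟩ := htub w (hw.trans (le_max_left _ _))
      refine ⟨t, ht, hb.trans (mul_le_mul_of_nonneg_left (Real.exp_le_exp.2 ?_) hs.le)⟩
      have : |A| * (1 + C₁) * pw γ ‖w‖ ≤ Q * pw γ ‖w‖ := by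
        apply mul_le_mul_of_nonneg_right _ (by linarith [one_le_pw hγ.le (norm_nonneg w)])
        rw [hQ]
        linarith
      linarith
    · have h2 := (hc' w).1
      have h3 : ‖H w‖ ≤ Real.exp (Real.log ‖F w‖ + Q₀ * pw γ ‖w‖) := by
        rw [← hexpH w]
        exact Real.exp_le_exp.2 h2
      have h4 : ‖F w‖ ≤ Real.exp (Real.log ‖F w‖ + Q₀ * pw γ ‖w‖) := by
        conv_lhs => rw [← hexpF w]
        apply Real.exp_le_exp.2
        have : 0 ≤ Q₀ * pw γ ‖w‖ := mul_nonneg hQ₀ (by linarith [one_le_pw hγ.le (norm_nonneg w)])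
        linarith
      have := norm_sub_le (H w) (F w)
      linarith
  · intro i
    obtain ⟨hE1, hE2, hE3⟩ := hpotE q F hF.cl i
    have hlap2 : ∀ z, κ ≤ infDist z (Gd rho δ F) → Δ (fun z => Real.log ‖G.E i (F z)‖) z ≤ B₀ / infDist z (Gd rho δ F) ^ 2 := fun w hw =>
      (hE2 w ((le_max_right _ _).trans hw)).trans (div_le_div_of_nonneg_right (le_max_right _ _) (sq_nonneg _))
    have hdE : ∀ {F : ℂ → EN N}, Differentiable ℂ F → Differentiable ℂ fun z => G.E i (F z) := fun {F} hF' w =>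
      ((hG.anE i (F w)).differentiableAt).comp w (hF' w)
    have h1 := hcoreE _ _ hP hd0 (fun z => Real.log ‖G.E i (F z)‖) hE1 hlap2 (fun w => by
      have := hE3 w
      rw [hQ]
      linarith) (fun z => G.E i (H z) - G.E i (F z)) ((hdE hH.cl.ent.diff).sub (hdE hF.cl.ent.diff)) s ε n Q₀ hs hs1 hε hn hQ₀
      (fun w hw => ?_) (fun w => ?_) y
    · refine h1.trans ?_
      rw [Real.exp_add, Real.exp_add, hexpEF i y]
      have e1 : K' * pw ((1 + γ) / 2) ‖y‖ ≤ max K K' * pw ((1 + γ) / 2) ‖y‖ :=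
        mul_le_mul_of_nonneg_right (le_max_right _ _) (by linarith [one_le_pw (γ := (1 + γ) / 2) (by linarith) (norm_nonneg y)])
      have e2 : K' * (ε * Real.log (2 + n)) * (1 + ‖y‖) ≤ max K K' * (ε * Real.log (2 + n)) * (1 + ‖y‖) := by
        have : 0 ≤ Real.log (2 + n) := Real.log_nonneg (by linarith)
        gcongr
        exact le_max_right _ _
      have e3 : Real.exp (K' * pw ((1 + γ) / 2) ‖y‖) * Real.exp (K' * (ε * Real.log (2 + n)) * (1 + ‖y‖)) ≤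
          Real.exp (max K K' * pw ((1 + γ) / 2) ‖y‖ + max K K' * (ε * Real.log (2 + n)) * (1 + ‖y‖)) := by
        rw [← Real.exp_add]
        exact Real.exp_le_exp.2 (add_le_add e1 e2)
      calc s * (‖G.E i (F y)‖ * Real.exp (K' * pw ((1 + γ) / 2) ‖y‖) * Real.exp (K' * (ε * Real.log (2 + n)) * (1 + ‖y‖)))
          = s * (Real.exp (K' * pw ((1 + γ) / 2) ‖y‖) * Real.exp (K' * (ε * Real.log (2 + n)) * (1 + ‖y‖))) * ‖G.E i (F y)‖ := by ring
        _ ≤ _ := by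
          apply mul_le_mul_of_nonneg_right _ (norm_nonneg _)
          exact mul_le_mul_of_nonneg_left e3 hs.le
    · have hwm : infDist w (Gd rho δ F) ≤ κm := hw.trans (le_max_right _ _)
      obtain ⟨t, ht, hb⟩ := htub w hwm
      refine ⟨t, ht, ?_⟩
      have hpw := one_le_pw hγ.le (norm_nonneg w)
      set X : ℝ := B₄ * (1 + κm) + Q₀ * pw γ ‖w‖ with hX
      have hX0 : 0 ≤ X := by
        have : 0 ≤ Q₀ * pw γ ‖w‖ := mul_nonneg hQ₀ (by linarith)
        positivity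
      have hlF : Real.log ‖F w‖ ≤ B₄ * (1 + κm) := (hgrow q F hF.cl w).trans (mul_le_mul_of_nonneg_left (by linarith) hB₄)
      have hFR : ‖F w‖ ≤ Real.exp X := by
        conv_lhs => rw [← hexpF w]
        apply Real.exp_le_exp.2
        have : 0 ≤ Q₀ * pw γ ‖w‖ := mul_nonneg hQ₀ (by linarith)
        linarith
      have hHR : ‖H w‖ ≤ Real.exp X := by
        rw [← hexpH w]
        apply Real.exp_le_exp.2
        have := (hc' w).1
        linarith
      have hl := hlip i (H w) (F w) (Real.exp X) (Real.one_le_exp hX0) hHR hFR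
      have hci : (G.c i : ℝ) ≤ s₁ := Finset.single_le_sum (f := fun i => (G.c i : ℝ)) (fun i _ => by positivity) (Finset.mem_univ i)
      have e1 : B₃ * Real.exp X ^ G.c i ≤ Real.exp (Real.log (1 + B₃) + s₁ * X) := by
        have e0 : Real.exp X ^ G.c i = Real.exp (G.c i * X) := (Real.exp_nat_mul X (G.c i)).symm
        rw [e0, Real.exp_add (Real.log (1 + B₃)), Real.exp_log (by linarith)]
        exact mul_le_mul (by linarith) (Real.exp_le_exp.2 (mul_le_mul_of_nonneg_right hci hX0)) (Real.exp_pos _).le (by linarith)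
      calc ‖G.E i (H w) - G.E i (F w)‖ ≤ B₃ * Real.exp X ^ G.c i * ‖H w - F w‖ := hl
        _ ≤ Real.exp (Real.log (1 + B₃) + s₁ * X) * (s * Real.exp (|A| * (1 + C₁) * pw γ ‖w‖ + ε * min t n)) :=
            mul_le_mul e1 hb (norm_nonneg _) (Real.exp_pos _).le
        _ = s * Real.exp ((Real.log (1 + B₃) + s₁ * X) + (|A| * (1 + C₁) * pw γ ‖w‖ + ε * min t n)) := by
            rw [Real.exp_add (Real.log (1 + B₃) + s₁ * X)]; ring
        _ ≤ s * Real.exp (Q * pw γ ‖w‖ + ε * min t n) := by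
            apply mul_le_mul_of_nonneg_left _ hs.le
            apply Real.exp_le_exp.2
            have e2 : Real.log (1 + B₃) ≤ Real.log (1 + B₃) * pw γ ‖w‖ := le_mul_of_one_le_right hlogB hpw
            have e3 : s₁ * (B₄ * (1 + κm)) ≤ s₁ * (B₄ * (1 + κm)) * pw γ ‖w‖ := le_mul_of_one_le_right hQ2 hpw
            have e4 : 0 ≤ c₁ * pw γ ‖w‖ := mul_nonneg hc₁ (by linarith)
            have e5 : 0 ≤ B₂ * pw γ ‖w‖ := mul_nonneg (by linarith) (by linarith)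
            have e6 : Q * pw γ ‖w‖ = |A| * (1 + C₁) * pw γ ‖w‖ + s₁ * (B₄ * (1 + κm)) * pw γ ‖w‖ + s₁ * (Q₀ * pw γ ‖w‖) +
                Real.log (1 + B₃) * pw γ ‖w‖ + c₁ * pw γ ‖w‖ + B₂ * pw γ ‖w‖ := by rw [hQ]; ring
            rw [e6, hX]
            linarith
    · have h2 := (hc' w).2 i
      have h3 : ‖G.E i (H w)‖ ≤ Real.exp (Real.log ‖G.E i (F w)‖ + Q₀ * pw γ ‖w‖) := by
        rw [← hexpEH i w]
        exact Real.exp_le_exp.2 h2
      have h4 : ‖G.E i (F w)‖ ≤ Real.exp (Real.log ‖G.E i (F w)‖ + Q₀ * pw γ ‖w‖) := by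
        conv_lhs => rw [← hexpEF i w]
        apply Real.exp_le_exp.2
        have : 0 ≤ Q₀ * pw γ ‖w‖ := mul_nonneg hQ₀ (by linarith [one_le_pw hγ.le (norm_nonneg w)])
        linarith
      have := norm_sub_le (G.E i (H w)) (G.E i (F w))
      linarith

end Pool.Agent.SR2.F
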