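import Pool.Agent.SR2.F.Rigid
import Pool.Agent.SR2.F.Tube
import Pool.Agent.SR2.F.First

/-!
# SR2 F All: block F (`tube_bd`, `first_p`, `rigid_f`)
-/
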