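import Pool.Agent.H30M.Tau2

/-!
# SR2 F JenA: an entire function which decays linearly on both sides of a line vanishes
-/

set_option autoImplicit false

open MeasureTheory Topology Filter Metric

noncomputable section

namespace Pool.Agent.SR2.F

open Pool.Agent.H30M (rho rhoR avg tau pl_tau tau_nonneg rhoR_nonneg continuous_rhoR hcs_rhoR int_rhoR rhoR_one int_rho rho_nonneg rhoR_eq_zero integrable_mul_log
  continuous_rho)

theorem avg_scale {R : ℝ} (hR : 1 ≤ R) (f : ℂ → ℝ) : avg R f = avg 1 fun z => f (R * z) := by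
  have hR0 : 0 < R := by linarith
  have h2 := Measure.integral_comp_smul_of_nonneg (volume : Measure ℂ) (fun z : ℂ => rho z * f (R * z)) (R⁻¹) (hR := by positivity)
  rw [Complex.finrank_real_complex] at h2
  unfold avg
  rw [rhoR_one]
  have e : (fun z : ℂ => rhoR R z * f z) = fun z : ℂ => (1 / R ^ 2) * (rho (R⁻¹ • z) * f (R * (R⁻¹ • z))) := by
    funext z
    unfold rhoR
    have h3 : z / (R : ℂ) = R⁻¹ • z := by
      rw [Complex.real_smul]
      push_cast
      ring
    have h4 : (R : ℂ) * (R⁻¹ • z) = z := by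
      rw [Complex.real_smul, Complex.ofReal_inv, ← mul_assoc, mul_inv_cancel₀ (Complex.ofReal_ne_zero.2 hR0.ne'), one_mul]
    rw [h3, h4]
    ring
  rw [e, integral_const_mul, h2, smul_eq_mul]
  field_simp

/-- the line is a null set -/
theorem line_null {u : ℂ} (hu : u ≠ 0) : ∀ᵐ z : ℂ, (star u * z).re ≠ 0 := by
  rw [ae_iff]
  simp only [not_not]
  set L : Submodule ℝ ℂ := LinearMap.ker ((Complex.reCLM.toLinearMap).comp ((LinearMap.mulLeft ℝ (star u)))) with hL
  have h1 : {z : ℂ | (star u * z).re = 0} = (L : Set ℂ) := by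
    ext z
    simp [hL, LinearMap.mem_ker]
  have h2 : L ≠ ⊤ := by
    intro h3
    have h4 : u ∈ L := by rw [h3]; exact Submodule.mem_top
    have h5 : (star u * u).re = 0 := by
      have : u ∈ {z : ℂ | (star u * z).re = 0} := by rw [h1]; exact h4
      exact this
    have h6 : (star u * u) = ((Complex.normSq u : ℝ) : ℂ) := by
      rw [Complex.star_def, mul_comm, Complex.mul_conj]
    rw [h6, Complex.ofReal_re] at h5
    exact hu (Complex.normSq_eq_zero.1 h5)
  rw [h1]
  exact Measure.addHaar_submodule volume L h2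

theorem avg_pos {u : ℂ} (hu : u ≠ 0) : 0 < avg 1 fun z => |(star u * z).re| := by
  unfold avg
  have hc : Continuous fun z : ℂ => rhoR 1 z * |(star u * z).re| :=
    (continuous_rhoR 1).mul (Complex.continuous_re.comp (continuous_const.mul continuous_id)).abs
  have hi : Integrable fun z : ℂ => rhoR 1 z * |(star u * z).re| := hc.integrable_of_hasCompactSupport (hcs_rhoR le_rfl).mul_right
  have h0 : 0 ≤ fun z : ℂ => rhoR 1 z * |(star u * z).re| := fun z => mul_nonneg (rhoR_nonneg _ _) (abs_nonneg _)
  rw [integral_pos_iff_support_of_nonneg h0 hi, pos_iff_ne_zero]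
  intro h1
  have h2 : ∀ᵐ z : ℂ, rhoR 1 z * |(star u * z).re| = 0 := by
    rw [ae_iff]
    exact h1
  have h3 : ∀ᵐ z : ℂ, rhoR 1 z = 0 := by
    filter_upwards [h2, line_null hu] with z h4 h5
    rcases mul_eq_zero.1 h4 with h6 | h6
    · exact h6
    · exact absurd (abs_eq_zero.1 h6) h5
  have h4 : ∫ z, rhoR 1 z = 0 := by
    rw [integral_congr_ae h3]
    simp
  rw [int_rhoR le_rfl] at h4
  exact (by positivity : (0 : ℝ) < 2 * Real.pi).ne' h4

/-- **An entire function which decays linearly on both sides of a line vanishes.** -/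
theorem eq_zero_of_decay {g : ℂ → ℂ} (hg : Differentiable ℂ g) {u : ℂ} (hu : u ≠ 0) {c C γ : ℝ} (hc : 0 < c) (hC : 0 ≤ C) (hγ0 : 0 ≤ γ) (hγ : γ < 1)
    (h : ∀ z, ‖g z‖ ≤ Real.exp (-(c * |(star u * z).re|) + C * (2 + ‖z‖) ^ γ)) : ∀ z, g z = 0 := by
  by_contra hne
  push Not at hne
  set m := avg 1 fun z => |(star u * z).re| with hm
  have hm0 : 0 < m := avg_pos hu
  set C3 := -avg 1 (fun z => Real.log ‖g z‖) with hC3
  -- the order of the zeros
  have hA : AnalyticOnNhd ℂ g Set.univ := fun z _ => hg.analyticAt z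
  have ho : ∀ z, analyticOrderAt g z ≠ ⊤ := by
    obtain ⟨w, hw⟩ := hne
    have hw' : analyticOrderAt g w ≠ ⊤ := by
      rw [(hg.analyticAt w).analyticOrderAt_eq_zero.2 hw]
      simp
    intro z
    exact hA.analyticOrderAt_ne_top_of_isPreconnected isPreconnected_univ (Set.mem_univ w) (Set.mem_univ z) hw'
  have hae : ∀ᵐ z : ℂ, g z ≠ 0 := by
    have h1 : {z | g z ≠ 0} ∈ codiscreteWithin (Set.univ : Set ℂ) := by
      rw [mem_codiscreteWithin_iff_forall_mem_nhdsNE]
      intro z _
      have h2 : ∀ᶠ w in 𝓝[≠] z, g w ≠ 0 := by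
        rcases (hg.analyticAt z).eventually_eq_zero_or_eventually_ne_zero with h3 | h3
        · exact absurd (analyticOrderAt_eq_top.2 h3) (ho z)
        · exact h3
      filter_upwards [h2] with w hw
      exact Or.inl hw
    have h2 := ae_restrict_le_codiscreteWithin (μ := (volume : Measure ℂ)) MeasurableSet.univ h1
    rw [Measure.restrict_univ] at h2
    exact h2
  have key : ∀ R : ℝ, 1 ≤ R → c * m * R ≤ C3 + 2 * Real.pi * (C * (5 * R) ^ γ) := by
    intro R hR
    have hR0 : 0 < R := by linarith
    have h1 := pl_tau hR hg hne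
    have h2 : 0 ≤ 2 * Real.pi * ∑ᶠ z, (analyticOrderNatAt g z : ℝ) * tau R z :=
      mul_nonneg (by positivity) (finsum_nonneg fun z => mul_nonneg (Nat.cast_nonneg _) (tau_nonneg hR z))
    have h3 : -C3 ≤ avg R fun z => Real.log ‖g z‖ := by
      rw [hC3, neg_neg]
      linarith
    have hcy : Continuous fun z : ℂ => |(star u * z).re| := (Complex.continuous_re.comp (continuous_const.mul continuous_id)).abs
    have iy : Integrable fun z : ℂ => rhoR R z * |(star u * z).re| :=
      ((continuous_rhoR R).mul hcy).integrable_of_hasCompactSupport (hcs_rhoR hR).mul_right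
    have i0 : Integrable fun z : ℂ => rhoR R z := (continuous_rhoR R).integrable_of_hasCompactSupport (hcs_rhoR hR)
    have h4 : avg R (fun z => Real.log ‖g z‖) ≤ ∫ z, (-c * (rhoR R z * |(star u * z).re|) + C * (5 * R) ^ γ * rhoR R z) := by
      unfold avg
      refine integral_mono_ae (integrable_mul_log (continuous_rhoR R) (hcs_rhoR hR) (fun z _ => hg.analyticAt z) fun z _ => ho z)
        ((iy.const_mul (-c)).add (i0.const_mul _)) ?_
      filter_upwards [hae] with z hz
      have h5 : Real.log ‖g z‖ ≤ -(c * |(star u * z).re|) + C * (2 + ‖z‖) ^ γ := by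
        rw [← Real.log_exp (-(c * |(star u * z).re|) + C * (2 + ‖z‖) ^ γ)]
        exact Real.log_le_log (norm_pos_iff.2 hz) (h z)
      show rhoR R z * Real.log ‖g z‖ ≤ -c * (rhoR R z * |(star u * z).re|) + C * (5 * R) ^ γ * rhoR R z
      by_cases hzR : ‖z‖ ≤ Real.exp 1 * R
      · have h6 : (2 + ‖z‖) ^ γ ≤ (5 * R) ^ γ := by
          refine Real.rpow_le_rpow (by positivity) ?_ hγ0
          have h7 : Real.exp 1 ≤ 3 := by
            have := Real.exp_one_lt_d9
            linarith
          nlinarith
        have h8 : Real.log ‖g z‖ ≤ -(c * |(star u * z).re|) + C * (5 * R) ^ γ := h5.trans (by gcongr)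
        have := mul_le_mul_of_nonneg_left h8 (rhoR_nonneg R z)
        linarith
      · rw [rhoR_eq_zero hR (Or.inr (not_le.1 hzR).le)]
        simp
    rw [integral_add (iy.const_mul (-c)) (i0.const_mul _), integral_const_mul, integral_const_mul, int_rhoR hR] at h4
    have h5 : ∫ z, rhoR R z * |(star u * z).re| = R * m := by
      have h6 := avg_scale hR (fun z => |(star u * z).re|)
      unfold avg at h6
      rw [h6, hm]
      unfold avg
      rw [← integral_const_mul]
      refine integral_congr_ae (Eventually.of_forall fun z => ?_)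
      have h7 : (star u * ((R : ℂ) * z)).re = R * (star u * z).re := by
        have : star u * ((R : ℂ) * z) = (R : ℂ) * (star u * z) := by ring
        rw [this, Complex.re_ofReal_mul]
      show rhoR 1 z * |(star u * (R * z)).re| = R * (rhoR 1 z * |(star u * z).re|)
      rw [h7, abs_mul, abs_of_pos hR0]
      ring
    rw [h5] at h4
    linarith
  -- the limit
  have hlim : Tendsto (fun R : ℝ => C3 / R + 2 * Real.pi * (C * 5 ^ γ) * R ^ (-(1 - γ))) atTop (𝓝 (0 + 2 * Real.pi * (C * 5 ^ γ) * 0)) :=
    (tendsto_const_nhds.div_atTop tendsto_id).add ((tendsto_rpow_neg_atTop (by linarith)).const_mul _)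
  rw [mul_zero, add_zero] at hlim
  have h1 : c * m ≤ 0 := by
    refine ge_of_tendsto hlim ?_
    filter_upwards [eventually_ge_atTop 1] with R hR
    have hR0 : 0 < R := by linarith
    have h2 := key R hR
    rw [Real.mul_rpow (by norm_num) hR0.le] at h2
    have h3 : R ^ γ = R * R ^ (-(1 - γ)) := by
      nth_rewrite 2 [← Real.rpow_one R]
      rw [← Real.rpow_add hR0]
      congr 1
      ring
    rw [h3] at h2
    have h4 : c * m = c * m * R / R := by field_simp
    rw [h4, div_le_iff₀ hR0, add_mul, div_mul_cancel₀ _ hR0.ne']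
    linarith
  have : 0 < c * m := by positivity
  linarith

end Pool.Agent.SR2.F
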