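import Pool.Agent.SR2.F.Defs

/-!
# SR2 F Stub: the statements of block F (never import this file in a hand-in)

One module = one file `Pool/Agent/SR2/F/<Module>.lean`, namespace `Pool.Agent.SR2.F`, statements verbatim.  Block A is used through
`Pool.Agent.SR2.StubA` until its files are there.
OWNERS: Mx Jen Sg 74 | Hat Cmp Pass 28 | Pot 68 | PotE LipE 36 | CmpInf Tube 38 | Tan Psi 54 | Lin Rigid 91 | Cst 99 | First 56.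
-/

set_option autoImplicit false

open Topology Filter Metric Laplacian InnerProductSpace

noncomputable section

namespace Pool.Agent.SR2.F.Stub

open Pool.Agent.H36.BP (EN fs)
open Pool.Agent.H14.PP (Tan)
open Pool.Agent.H30M (gg)
open Pool.Agent.SR2.F
open Pool.Agent.SR2.G (Mem Str Facts TubeBd FirstP RigidF IsChain)
open Geo (Gd)

/-! ## function theory -/

section

variable {V : Type} [NormedAddCommGroup V] [InnerProductSpace ℂ V] [CompleteSpace V]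

/-- MODULE Mx.  Maximum principle.  At a maximum of `‖U‖ exp (-W)` over the closed ball, greater than `1`, the function `log ‖U‖ - W` would have a
positive Laplacian (`MQ/FS.lean`: `lap_log_normV_nonneg`). -/
theorem bar_ball {U : ℂ → V} (hU : Differentiable ℂ U) {W : ℂ → ℝ} {a : ℂ} {R : ℝ} (hW : ∀ z ∈ closedBall a R, ContDiffAt ℝ 2 W z) {E : Set ℂ}
    (hlap : ∀ z ∈ ball a R, z ∈ E → Δ W z < 0) (hout : ∀ z ∈ closedBall a R, z ∉ E → ‖U z‖ ≤ Real.exp (W z))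
    (hbd : ∀ z ∈ sphere a R, ‖U z‖ ≤ Real.exp (W z)) : ∀ z ∈ closedBall a R, ‖U z‖ ≤ Real.exp (W z) := by
  sorry

/-- MODULE Mx. -/
theorem bar_all {U : ℂ → V} (hU : Differentiable ℂ U) {W : ℂ → ℝ} (hW : ContDiff ℝ 2 W) {E : Set ℂ} (hlap : ∀ z ∈ E, Δ W z < 0)
    (hout : ∀ z ∉ E, ‖U z‖ ≤ Real.exp (W z)) {R : ℝ} (hinf : ∀ z, R ≤ ‖z‖ → ‖U z‖ ≤ Real.exp (W z)) : ∀ z, ‖U z‖ ≤ Real.exp (W z) := by
  sorry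

/-- MODULE Jen.  Jensen: `log ‖ψ z₀‖ ≤` mean of `log ‖ψ‖` over large circles, which tends to `-∞`. -/
theorem entire_zero {ψ : ℂ → ℂ} (hψ : Differentiable ℂ ψ) {u a : ℂ} (hu : ‖u‖ = 1) {c C γ : ℝ} (hc : 0 < c) (hγ : γ < 1)
    (h : ∀ z, ‖ψ z‖ ≤ Real.exp (C * pw γ ‖z‖ - c * |yy u a z|)) : ∀ z, ψ z = 0 := by
  sorry

/-- MODULE Hat.  `Δ (r + A log r) = (1 + A / r) Δ r - A gg r r / r²`, `gg (rh) (rh) = (1 + A / r)² gg r r`; `A = 8 B³ / c`, `κ'` with `A ≤ c κ'`. -/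
theorem exists_hat {κ c B : ℝ} (hκ : 1 ≤ κ) (hc : 0 < c) (hB : 1 ≤ B) :
    ∃ A κ' B' : ℝ, 0 ≤ A ∧ κ ≤ κ' ∧ 1 ≤ B' ∧ ∀ r d : ℂ → ℝ, Pot r d κ c B → Hat (rh A r) d κ' c B' := by
  sorry

/-- MODULE Sg.  `Δ (1 + |z|²)^(γ/2) ≤ 2 γ (1 + |z|²)^(γ/2 - 1)`, `Δ r^γ ≤ - γ (1 - γ) c r^(γ - 2)`, and `r ≤ 2 B (1 + D) (1 + |z|²)^(1/2)`. -/
theorem exists_Sg {κ c B D : ℝ} (hκ : 1 ≤ κ) (hc : 0 < c) (hB : 1 ≤ B) (hD : 0 ≤ D) :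
    ∃ A c' : ℝ, 0 < A ∧ 0 < c' ∧ ∀ r d : ℂ → ℝ, Hat r d κ c B → d 0 ≤ D → ∀ γ, 0 < γ → γ < 1 →
      ContDiff ℝ 2 (Sg A γ r) ∧ ∀ z, κ ≤ d z → Δ (Sg A γ r) z ≤ -(γ * c' * (1 + d z) ^ (γ - 2)) := by
  sorry

/-- MODULE Cmp.  `W = rB + K₁ Sg A γ' (rh) + e ε Sg A γₙ (rh)`, `γₙ = 1 - 1 / (2 + log (2 + n))`, on `E = {κ' < d}`, in `bar_all`;
`min t n ≤ e (1 + t²)^(γₙ/2)`. -/
theorem compare {κ c B : ℝ} (hκ : 1 ≤ κ) (hc : 0 < c) (hB : 1 ≤ B) : ∃ κ' : ℝ, κ ≤ κ' ∧ ∀ D γ γ' Q : ℝ, 0 ≤ D → 0 < γ → γ < γ' → γ' < 1 → 0 ≤ Q →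
    ∃ K : ℝ, 0 ≤ K ∧ ∀ r d : ℂ → ℝ, Pot r d κ c B → d 0 ≤ D → ∀ rB : ℂ → ℝ, ContDiff ℝ 2 rB → (∀ z, κ ≤ d z → Δ rB z ≤ B / d z ^ 2) →
      (∀ z, -Q ≤ rB z) → ∀ U : ℂ → V, Differentiable ℂ U → ∀ ε n Q' : ℝ, 0 ≤ ε → 0 ≤ n →
        (∀ z, d z ≤ κ' → ‖U z‖ ≤ Real.exp (Q * pw γ ‖z‖ + ε * min ‖z‖ n)) → (∀ z, ‖U z‖ ≤ Real.exp (rB z + Q' * pw γ ‖z‖)) →
          ∀ z, ‖U z‖ ≤ Real.exp (rB z + K * pw γ' ‖z‖ + K * ε * Real.log (2 + n) * (1 + ‖z‖)) := by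
  sorry

/-- MODULE Pass.  `W = -m + (m + Q R) (|z - a|² + A (C₂ R rh - rh²)) / R²` on `closedBall a R`, in `bar_ball`; `rh ≤ C₂ R / 2` there,
`Δ (C₂ R rh - rh²) ≤ - 2 gg (rh) (rh) ≤ - 2 c`. -/
theorem pass {κ c B : ℝ} (hκ : 1 ≤ κ) (hc : 0 < c) (hB : 1 ≤ B) : ∃ κ' K : ℝ, κ ≤ κ' ∧ 0 ≤ K ∧ ∀ r d : ℂ → ℝ, Pot r d κ c B →
    ∀ U : ℂ → V, Differentiable ℂ U → ∀ (a : ℂ) (R m Q : ℝ), 1 ≤ R → d a ≤ R → 0 ≤ m + Q * R →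
      (∀ z ∈ closedBall a R, d z ≤ κ' → ‖U z‖ ≤ Real.exp (-m)) → (∀ z ∈ closedBall a R, ‖U z‖ ≤ Real.exp (Q * R)) →
        ‖U a‖ ≤ Real.exp (-m + K * (m + Q * R) * (1 + d a) / R) := by
  sorry

end

/-! ## geometry -/

variable {N : ℕ} {G : Geo N} {T : Set (EN N)} {rho : EN N → ℝ} {M : ℕ} {c₀ C δ γ A' B : ℝ} {g : (ℂ → EN N) → ℂ → ℝ}

/-- MODULE Pot.  `growth`, `lower`, `speed`, `log_lower` of block A; `Δ log ‖F‖ = 2 fs²` (`EGa.lean`: `log_c2`); the gradient: near `z`, `log ‖F‖` is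
affine up to `O (d^γ)` with a slope `≥ c A'` (`lam_upperA`: `h log ‖F‖ = ∑ b i lam i + O (1)`), `StubE.grad_est` on the ball of radius `c₂ d`;
`gg u u = ‖gc u‖²`. -/
theorem exists_pot (S : Base G T rho M c₀ C δ g) (hs : Str G T rho δ γ A' B) :
    ∃ κ c B₁ c₁ : ℝ, 1 ≤ κ ∧ 0 < c ∧ 1 ≤ B₁ ∧ 0 ≤ c₁ ∧ ∀ (q : G.J → ℂ) (F : ℂ → EN N), G.Cl T q F →
      Pot (fun z => Real.log ‖F z‖ + c₁) (fun z => infDist z (Gd rho δ F)) κ c B₁ := by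
  sorry

/-- MODULE PotE.  `log ‖E i (F)‖ = c i log ‖F‖ - lam i ≥ (c i - h) log ‖F‖ - B`; `Δ log ‖E i (F)‖ = 2 fs (E i F, dE i F')² ≤ C fs²`. -/
theorem exists_potE (S : Base G T rho M c₀ C δ g) :
    ∃ κ B₁ : ℝ, 1 ≤ κ ∧ 1 ≤ B₁ ∧ ∀ (q : G.J → ℂ) (F : ℂ → EN N), G.Cl T q F → ∀ i, ContDiff ℝ 2 (fun z => Real.log ‖G.E i (F z)‖) ∧
      (∀ z, κ ≤ infDist z (Gd rho δ F) → Δ (fun z => Real.log ‖G.E i (F z)‖) z ≤ B₁ / infDist z (Gd rho δ F) ^ 2) ∧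
      ∀ z, -B₁ ≤ Real.log ‖G.E i (F z)‖ := by
  sorry

/-- MODULE LipE.  A homogeneous analytic map. -/
theorem lipE (hG : G.Ok) : ∃ B₁ : ℝ, 0 ≤ B₁ ∧ ∀ (i : G.ι) (x y : EN N) (R : ℝ), 1 ≤ R → ‖x‖ ≤ R → ‖y‖ ≤ R → ‖G.E i x - G.E i y‖ ≤ B₁ * R ^ G.c i * ‖x - y‖ := by
  sorry

/-- MODULE CmpInf.  Both curves have good points near `0` (`exists_good_near`, `fits_all` of block G); `log ‖F‖ = (1/h) ∑ b i lam i + O (1)`,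
`log ‖E i (F)‖ = c i log ‖F‖ - lam i`. -/
theorem cmp_inf (hG : G.Ok) (hf : Facts G T rho δ γ A' B) (β β' : G.ι → ℝ) (M₁ : ℝ) :
    ∃ Q : ℝ, 0 ≤ Q ∧ ∀ (q : G.J → ℂ) (F H : ℂ → EN N), Mem G T rho δ γ A' B β β' q F → Mem G T rho δ γ A' B β β' q H →
      ‖F 0‖ ≤ M₁ → ‖H 0‖ ≤ M₁ → ∀ z, Real.log ‖H z‖ ≤ Real.log ‖F z‖ + Q * pw γ ‖z‖ ∧
        ∀ i, Real.log ‖G.E i (H z)‖ ≤ Real.log ‖G.E i (F z)‖ + Q * pw γ ‖z‖ := by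
  sorry

/-- MODULE Tube (**F1**).  From `compare` (for `U = exp (-ε C) (H - F) / s`, `rB = log ‖F‖`, and for `U = exp (-ε C) (E i (H) - E i (F)) / s`,
`rB = log ‖E i (F)‖`), `exists_pot`, `exists_potE`, `lipE`, `cmp_inf` (`M₁ = M₀ + exp (2 |A|)`), `tube_cover` of block G with the `κ'` of `compare`;
`min |k| n ≤ min ‖y‖ n + min C n`, `min C n ≤ 2 C log (2 + n)`; `γ' = (1 + γ) / 2`. -/
theorem tube_bd (S : Base G T rho M c₀ C δ g) (hf : Facts G T rho δ γ A' B) : TubeBd G T rho δ γ A' B := by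
  sorry

/-- MODULE First (**F2**).  `pass` with `a = x`, `R = x / 4` and `m = c₁ x / log (2 + x)`; `mem_log`, `tube_cover`. -/
theorem first_p (S : Base G T rho M c₀ C δ g) (hf : Facts G T rho δ γ A' B) : FirstP G T rho δ γ A' B := by
  sorry

/-! ## rigidity -/

/-- MODULE Tan.  The limit of the difference quotients is tangent: charts of `G.surf`, `H k = c' σ (τ (H k))`, `F k = c σ (τ (F k))`. -/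
theorem tan_lim (hG : G.Ok) (𝒰 : Ultrafilter ℕ) {x y : ℕ → EN N} {x₀ v : EN N} {ℓ : ℕ → ℝ} (hx : ∀ k, x k ∈ G.K ∧ G.p (x k) = 1)
    (hy : ∀ k, y k ∈ G.K ∧ G.p (y k) = 1) (hx₀ : x₀ ∈ G.K) (hℓ : ∀ k, 0 < ℓ k) (hℓ0 : Tendsto ℓ 𝒰 (𝓝 0)) (h1 : Tendsto x 𝒰 (𝓝 x₀))
    (h2 : Tendsto (fun k => ((ℓ k : ℂ)⁻¹) • (y k - x k)) 𝒰 (𝓝 v)) : Tan G.X x₀ v ∧ fderiv ℂ G.p x₀ v = 0 := by
  sorry

/-- MODULE Psi.  `φ (z, t) = c (z) σ (τ (F z) + t Dτ (F z) (V z))` in `IsForm.analytic`, at `(z, 0)`; `add_smul`. -/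
theorem psi_diff (hG : G.Ok) (a : G.A) {F V : ℂ → EN N} (hF : Differentiable ℂ F) (hK : ∀ z, F z ∈ G.K) (hV : Differentiable ℂ V)
    (hT : ∀ z, Tan G.X (F z) (V z)) : Differentiable ℂ fun z => G.Ω a (F z) (deriv F z) (V z) := by
  sorry

/-- MODULE Psi.  From `Ω_le`; `fs x w ≤ ‖w‖ / ‖x‖`. -/
theorem psi_le (hG : G.Ok) : ∃ B₁ : ℝ, 0 ≤ B₁ ∧ ∀ a, ∀ x ∈ G.K, G.p x = 1 → ∀ v w, Tan G.X x v → Tan G.X x w → ∀ e : ℝ, 0 ≤ e → ‖w‖ ≤ e * ‖x‖ →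
    (∀ i, ‖fderiv ℂ (G.E i) x w‖ ≤ e * ‖G.E i x‖) → ‖G.Ω a x v w‖ ≤ B₁ * G.L x v ^ G.mΩ * e ^ G.mΩ / ‖x‖ ^ G.jΩ := by
  sorry

/-- MODULE Lin.  `Ω_ne`: `x`, `v`, `w` are linearly dependent; apply `fderiv p x`, which is `h p (x) ≠ 0` at `x` (Euler). -/
theorem lin_dep (hG : G.Ok) {x v w : EN N} (hx : x ∈ G.K) (hv : Tan G.X x v) (hw : Tan G.X x w) (hpv : fderiv ℂ G.p x v = 0)
    (hpw : fderiv ℂ G.p x w = 0) (hv0 : v ≠ 0) (h : ∀ a, G.Ω a x v w = 0) : ∃ c : ℂ, w = c • v := by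
  sorry

/-- MODULE Cst.  In a chart `w j` is an analytic function `w (y, u)`, homogeneous in `u`; `h k = f k + ℓ k (c f₀' + o (1))` with derivatives; so
`0 = D_y w (c f₀') + D_u w (c' f₀' + c f₀'') = c (w (f₀, f₀'))' + m j c' q j`. -/
theorem deriv_c_zero (hG : G.Ok) (𝒰 : Ultrafilter ℕ) {q : G.J → ℂ} {F H : ℕ → ℂ → EN N} {ℓ : ℕ → ℝ} {F₀ V : ℂ → EN N}
    (hF : ∀ k, G.Cl T q (F k)) (hH : ∀ k, G.Cl T q (H k)) (h0 : G.Cl T q F₀) (hℓ : ∀ k, 0 < ℓ k) (hℓ0 : Tendsto ℓ 𝒰 (𝓝 0))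
    (h1 : TendstoLocallyUniformlyOn F F₀ 𝒰 Set.univ)
    (h2 : TendstoLocallyUniformlyOn (fun k z => ((ℓ k : ℂ)⁻¹) • (H k z - F k z)) V 𝒰 Set.univ) {c : ℂ → ℂ} (hc : Differentiable ℂ c)
    (hV : ∀ z, V z = c z • deriv F₀ z) : ∀ z, deriv c z = 0 := by
  sorry

/-- MODULE Rigid.  `c` is entire, `V = c F₀'` (`lin_dep`, `psi_diff`, `psi_le`, `entire_zero`, `tan_lim`), `deriv_c_zero`. -/
theorem rigid_f (S : Base G T rho M c₀ C δ g) (hs : Str G T rho δ γ A' B) : RigidF G T := by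
  sorry

end Pool.Agent.SR2.F.Stub
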